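import Pool.Agent.Lib.MP_666dc0_nt.ZO.L1

/-!
# PL, RDefs: reductions of spaces of functions; functions with given restrictions to cosets (complete, NOT a task)
-/

namespace Pool.Agent.Lib.MP_666dc0_nt.PL

open ZO

section red

variable {ℓ : ℕ} [Fact ℓ.Prime] {k : Type} [Field k] (ρ : Red ℓ k) {X : Type}

/-- All functions in `V` attain their maximal norm. -/
def Maxi (V : Submodule (PadicAlgCl ℓ) (X → PadicAlgCl ℓ)) : Prop :=
  ∀ v ∈ V, ∃ x₀, ∀ x, ‖v x‖ ≤ ‖v x₀‖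

/-- The reductions of the integral functions in `V`. -/
def redS (V : Submodule (PadicAlgCl ℓ) (X → PadicAlgCl ℓ)) : Submodule k (X → k) where
  carrier := {f | ∃ v ∈ V, (∀ x, ‖v x‖ ≤ 1) ∧ ∀ x, f x = ρ.app (v x)}
  add_mem' := by
    rintro f f' ⟨v, hv, hv1, hf⟩ ⟨v', hv', hv1', hf'⟩
    refine ⟨v + v', V.add_mem hv hv', fun x => ?_, fun x => ?_⟩
    · exact (IsUltrametricDist.norm_add_le_max _ _).trans (max_le (hv1 x) (hv1' x))
    · rw [Pi.add_apply, Pi.add_apply, ρ.app_add (hv1 x) (hv1' x), hf, hf']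
  zero_mem' := ⟨0, V.zero_mem, fun x => by simp, fun x => by
    rw [Pi.zero_apply, Pi.zero_apply, ρ.app_zero]⟩
  smul_mem' := by
    rintro c f ⟨v, hv, hv1, hf⟩
    obtain ⟨c', hc', hc⟩ := ρ.exists_lift c
    refine ⟨c' • v, V.smul_mem _ hv, fun x => ?_, fun x => ?_⟩
    · rw [Pi.smul_apply, smul_eq_mul, norm_mul]
      exact mul_le_one₀ hc' (norm_nonneg _) (hv1 x)
    · rw [Pi.smul_apply, Pi.smul_apply, smul_eq_mul, smul_eq_mul, ρ.app_mul hc' (hv1 x), hc, hf]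

theorem mem_redS {V : Submodule (PadicAlgCl ℓ) (X → PadicAlgCl ℓ)} {f : X → k} :
    f ∈ redS ρ V ↔ ∃ v ∈ V, (∀ x, ‖v x‖ ≤ 1) ∧ ∀ x, f x = ρ.app (v x) := Iff.rfl

end red

section cosets

variable {k : Type} [Field k] {𝔾 : Type} [Group 𝔾]

/-- The functions in `Z` which are right invariant under `H`. -/
def inv (Z : Submodule k (𝔾 → k)) (H : Subgroup 𝔾) : Submodule k (𝔾 → k) where
  carrier := {f | f ∈ Z ∧ ∀ g, ∀ h ∈ H, f (g * h) = f g}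
  add_mem' := by
    rintro f f' ⟨h1, h2⟩ ⟨h1', h2'⟩
    exact ⟨Z.add_mem h1 h1', fun g h hh => by rw [Pi.add_apply, Pi.add_apply, h2 g h hh, h2' g h hh]⟩
  zero_mem' := ⟨Z.zero_mem, fun _ _ _ => rfl⟩
  smul_mem' := by
    rintro c f ⟨h1, h2⟩
    exact ⟨Z.smul_mem c h1, fun g h hh => by rw [Pi.smul_apply, Pi.smul_apply, h2 g h hh]⟩

theorem mem_inv {Z : Submodule k (𝔾 → k)} {H : Subgroup 𝔾} {f : 𝔾 → k} :
    f ∈ inv Z H ↔ f ∈ Z ∧ ∀ g, ∀ h ∈ H, f (g * h) = f g := Iff.rfl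

/-- The functions `f` in `Z` such that for all `g` the function `p ↦ f (g p)` on `P` is in `W`. -/
def onW (Z : Submodule k (𝔾 → k)) (P : Subgroup 𝔾) (W : Submodule k (P → k)) : Submodule k (𝔾 → k) where
  carrier := {f | f ∈ Z ∧ ∀ g, (fun p : P => f (g * p)) ∈ W}
  add_mem' := by
    rintro f f' ⟨h1, h2⟩ ⟨h1', h2'⟩
    exact ⟨Z.add_mem h1 h1', fun g => W.add_mem (h2 g) (h2' g)⟩
  zero_mem' := ⟨Z.zero_mem, fun _ => W.zero_mem⟩
  smul_mem' := by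
    rintro c f ⟨h1, h2⟩
    exact ⟨Z.smul_mem c h1, fun g => W.smul_mem c (h2 g)⟩

theorem mem_onW {Z : Submodule k (𝔾 → k)} {P : Subgroup 𝔾} {W : Submodule k (P → k)} {f : 𝔾 → k} :
    f ∈ onW Z P W ↔ f ∈ Z ∧ ∀ g, (fun p : P => f (g * p)) ∈ W := Iff.rfl

/-- `N` is a decreasing sequence of normal subgroups of `H` of index a power of `ℓ`. -/
structure IsFil (ℓ : ℕ) (H : Subgroup 𝔾) (N : ℕ → Subgroup 𝔾) : Prop where
  le : ∀ t, N t ≤ H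
  anti : ∀ t, N (t + 1) ≤ N t
  normal : ∀ t, ∀ h ∈ H, ∀ n ∈ N t, h * n * h⁻¹ ∈ N t
  index : ∀ t, ∃ e : ℕ, (N t).relIndex H = ℓ ^ e

end cosets

end Pool.Agent.Lib.MP_666dc0_nt.PL
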