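import Pool.Agent.Lib.MP_666dc0_nt.Mg.G090

/-!
The number of the reductions which are killed by `n` independent rows.

`L = {v | ∀ Ψ : R → Ucf 𝒬, (∀ p, ∑ r, uact (Y p r) (Ψ r) = 0) → ∑ r, uact (v r) (Ψ r) = 0}` is a left submodule, it
contains the rows `Y p`, and it is saturated (`uact ℓ` is the multiplication by `ℓ`: `map_natCast`). Take `A` and the
`v = v^(r)`, `r ∉ A`, of `exists_coords_mod`. For `r ∉ A` let `b s = redk 𝒯 k s (pi s (v^(r) r))`, compatible and not all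
zero as in `rank_act'` (`FM/B2c.lean`), and `C r` the constant of `rank_quot`.
Let `J` be as in the statement, `t ≥ s` with `ker (q t) ≤ J` (`q_down`). Let `f ∈ rinv (redS ρ (KB 𝒬 Y)) J` with
`f (r, x) = 0` for all `r ∈ A` and all `x`. For `r ∉ A` `app_uact` gives
`0 = ∑ r', app (uact (v r') (Ψ r')) = ∑_{r'} c_{r'} · f (r', ·)`, where the terms with `r' ∈ A` vanish since `f (r', ·) = 0`,
and those with `r' ∉ A`, `r' ≠ r` vanish because `red (v r') = 0` (the sum over `c_{r'}` is the one over its image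
`redk (pi t (v r')) = 0` in `k[P t]`). So `f (r, ·)`, a function on `G ⧸ J`, is in the kernel of the operator `h` of
`rank_quot`, of dimension `≤ C r / ℓ ^ s * card (G ⧸ J)`. So
`dim (rinv ..) ≤ card A * J.index + ∑_{r ∉ A} C r / ℓ ^ s * J.index ≤ ((card R - n) + C / ℓ ^ s) * J.index`.
-/

namespace Pool.Agent.Lib.MP_666dc0_nt.PL

open ZO FM

section aux

variable {ℓ d : ℕ} [Fact ℓ.Prime] {𝒯 : UTow ℓ d} {G : Type} [Group G]

/-- The rows which kill all families of functions killed by the rows `Y p`. -/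
private noncomputable def LY (𝒬 : QTow 𝒯 G) {R : Type} [Fintype R] {n : ℕ} (Y : Fin n → R → 𝒯.La) :
    Submodule 𝒯.La (R → 𝒯.La) where
  carrier := {v | ∀ Ψ : R → Ucf 𝒬, (∀ p, ∑ r, uact 𝒬 (Y p r) (Ψ r) = 0) → ∑ r, uact 𝒬 (v r) (Ψ r) = 0}
  add_mem' := by
    intro v v' hv hv' Ψ hΨ
    have h1 : ∀ r, uact 𝒬 ((v + v') r) (Ψ r) = uact 𝒬 (v r) (Ψ r) + uact 𝒬 (v' r) (Ψ r) := fun r => by
      rw [Pi.add_apply, map_add, LinearMap.add_apply]
    rw [Finset.sum_congr rfl fun r _ => h1 r, Finset.sum_add_distrib, hv Ψ hΨ, hv' Ψ hΨ, add_zero]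
  zero_mem' := by
    intro Ψ _
    refine Finset.sum_eq_zero fun r _ => ?_
    rw [Pi.zero_apply, map_zero, LinearMap.zero_apply]
  smul_mem' := by
    intro a v hv Ψ hΨ
    have h1 : ∀ r, uact 𝒬 ((a • v) r) (Ψ r) = uact 𝒬 a (uact 𝒬 (v r) (Ψ r)) := fun r => by
      rw [Pi.smul_apply, smul_eq_mul, map_mul, Module.End.mul_apply]
    rw [Finset.sum_congr rfl fun r _ => h1 r, ← map_sum, hv Ψ hΨ, map_zero]

private theorem LY_sat (𝒬 : QTow 𝒯 G) {R : Type} [Fintype R] {n : ℕ} (Y : Fin n → R → 𝒯.La) (v : R → 𝒯.La)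
    (hv : (fun r => (ℓ : 𝒯.La) * v r) ∈ LY 𝒬 Y) : v ∈ LY 𝒬 Y := by
  intro Ψ hΨ
  have h1 := hv Ψ hΨ
  have h2 : ∀ r, uact 𝒬 ((ℓ : 𝒯.La) * v r) (Ψ r) = (ℓ : PadicAlgCl ℓ) • uact 𝒬 (v r) (Ψ r) := by
    intro r
    rw [map_mul, map_natCast, Module.End.mul_apply]
    have h5 : (ℓ : Module.End (PadicAlgCl ℓ) (Ucf 𝒬)) = (ℓ : PadicAlgCl ℓ) • 1 := by
      rw [← nsmul_one, ← Nat.cast_smul_eq_nsmul (PadicAlgCl ℓ)]
    rw [h5]
    rfl
  rw [Finset.sum_congr rfl fun r _ => h2 r, ← Finset.smul_sum] at h1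
  rcases smul_eq_zero.1 h1 with h3 | h3
  · exact absurd h3 (by exact_mod_cast (Fact.out : ℓ.Prime).ne_zero)
  · exact h3

/-- A sum over an element of the group ring with vanishing reduction is zero. -/
private theorem sum_zero (𝒬 : QTow 𝒯 G) {k : Type} [Field k] [CharP k ℓ] {t : ℕ} {f : G → k}
    (hinv : ∀ x j, 𝒬.q t j = 1 → f (x * j) = f x) {c : MonoidAlgebra ℤ G} (hc : redk 𝒯 k t (pj 𝒬 t c) = 0)
    (x : G) : (c.coeff.sum fun g m => (m : k) * f (g⁻¹ * x)) = 0 := by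
  choose σ hσ using 𝒬.surj t
  have hFq : ∀ g, f (g⁻¹ * x) = f ((σ (𝒬.q t g))⁻¹ * x) := by
    intro g
    have h3 : (σ (𝒬.q t g))⁻¹ * x = (g⁻¹ * x) * (x⁻¹ * (g * (σ (𝒬.q t g))⁻¹) * x) := by group
    have h4 : 𝒬.q t (x⁻¹ * (g * (σ (𝒬.q t g))⁻¹) * x) = 1 := by
      rw [map_mul, map_mul, map_mul, map_inv, map_inv, hσ, mul_inv_cancel, mul_one, inv_mul_cancel]
    rw [h3, hinv _ _ h4]
  have h1 := sum_red 𝒬 (k := k) t (fun p => f ((σ p)⁻¹ * x)) c
  rw [hc] at h1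
  have h2 : ((0 : MonoidAlgebra k (𝒯.P t)).coeff.sum fun p a => a * f ((σ p)⁻¹ * x)) = 0 := Finsupp.sum_zero_index
  rw [← h2, ← h1]
  refine Finsupp.sum_congr fun g _ => ?_
  rw [hFq]

/-- The reductions of an element with non-zero reduction. -/
private theorem redk_ne (𝒬 : QTow 𝒯 G) (k : Type) [Field k] [CharP k ℓ] {b : 𝒯.La} (hb : 𝒯.red b ≠ 0) :
    (∃ s₀, redk 𝒯 k s₀ (𝒯.la.pi s₀ b) ≠ 0) ∧
      ∀ s, MonoidAlgebra.mapDomain (𝒯.pr s) (redk 𝒯 k (s + 1) (𝒯.la.pi (s + 1) b)) =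
        redk 𝒯 k s (𝒯.la.pi s b) := by
  refine ⟨?_, fun s => ?_⟩
  · by_contra hcon
    push Not at hcon
    refine hb ((𝒯.om (ZMod ℓ)).ext fun s => ?_)
    rw [map_zero, UTow.pi_red]
    have h1 := hcon s
    refine MonoidAlgebra.map_injective (ZMod.castHom (dvd_refl ℓ) k : ZMod ℓ →+ k)
      (ZMod.castHom (dvd_refl ℓ) k).injective ?_
    change MonoidAlgebra.mapRingHom (𝒯.P s) (ZMod.castHom (dvd_refl ℓ) k) (𝒯.redf s (𝒯.la.pi s b)) =
      MonoidAlgebra.mapRingHom (𝒯.P s) (ZMod.castHom (dvd_refl ℓ) k) 0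
    rw [map_zero]
    exact h1
  · obtain ⟨c, hc⟩ := pj_surj 𝒬 (s + 1) (𝒯.la.pi (s + 1) b)
    have hc' := pj_down 𝒬 (Nat.le_succ s) b c hc
    rw [← hc, ← hc', map_pj, map_pj]
    change MonoidAlgebra.ofCoeff (Finsupp.mapDomain _ (Finsupp.mapDomain _ _)) = MonoidAlgebra.ofCoeff _
    rw [← Finsupp.mapDomain_comp]
    congr 2
    funext x
    exact 𝒬.compat s x

private theorem redk_zero (k : Type) [Field k] [CharP k ℓ] {b : 𝒯.La} (hb : 𝒯.red b = 0) (t : ℕ) :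
    redk 𝒯 k t (𝒯.la.pi t b) = 0 := by
  have h1 : 𝒯.redf t (𝒯.la.pi t b) = 0 := by
    rw [← UTow.pi_red, hb, map_zero]
  change MonoidAlgebra.mapRingHom (𝒯.P t) (ZMod.castHom (dvd_refl ℓ) k) (𝒯.redf t (𝒯.la.pi t b)) = _
  exact (congrArg (MonoidAlgebra.mapRingHom (𝒯.P t) (ZMod.castHom (dvd_refl ℓ) k)) h1).trans (map_zero _)

/-- The operator of an element of the group ring on the functions on `G ⧸ J`. -/
private noncomputable def opJ {k : Type} [Field k] (J : Subgroup G) (c : MonoidAlgebra ℤ G) :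
    ((G ⧸ J) → k) →ₗ[k] ((G ⧸ J) → k) where
  toFun := fun f y => (MonoidAlgebra.mapRingHom G (Int.castRingHom k) c).coeff.sum fun g a => a * f (g⁻¹ • y)
  map_add' := fun f f' => by
    funext y
    rw [Pi.add_apply, ← Finsupp.sum_add]
    refine Finsupp.sum_congr fun g _ => ?_
    rw [Pi.add_apply, mul_add]
  map_smul' := fun z f => by
    funext y
    rw [RingHom.id_apply, Pi.smul_apply, smul_eq_mul, Finsupp.mul_sum]
    refine Finsupp.sum_congr fun g _ => ?_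
    rw [Pi.smul_apply, smul_eq_mul]
    ring

private theorem opJ_mk {k : Type} [Field k] (J : Subgroup G) (c : MonoidAlgebra ℤ G) {f : G → k}
    (hf : ∀ x, ∀ j ∈ J, f (x * j) = f x) (x : G) :
    opJ J c (fun y => f (Quotient.out y)) (QuotientGroup.mk x) =
      c.coeff.sum fun g m => (m : k) * f (g⁻¹ * x) := by
  change (Finsupp.mapRange (Int.castRingHom k) (map_zero _) c.coeff).sum
    (fun g a => a * f (Quotient.out (g⁻¹ • (QuotientGroup.mk x : G ⧸ J)))) = _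
  rw [Finsupp.sum_mapRange_index]
  · refine Finsupp.sum_congr fun g _ => ?_
    congr 1
    obtain ⟨u, hu⟩ := QuotientGroup.mk_out_eq_mul J (g⁻¹ * x)
    change f (Quotient.out ((QuotientGroup.mk (g⁻¹ * x) : G ⧸ J))) = _
    rw [hu]
    exact hf (g⁻¹ * x) u u.2
  · intro g
    rw [zero_mul]

end aux

theorem finrank_rinv_le {ℓ d : ℕ} [Fact ℓ.Prime] {𝒯 : UTow ℓ d} {G : Type} [Group G] (𝒬 : QTow 𝒯 G) {k : Type}
    [Field k] [CharP k ℓ] (ρ : Red ℓ k) {R : Type} [Fintype R] {n : ℕ} (Y : Fin n → R → 𝒯.La) (hi : RowIndep Y) :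
    ∃ C : ℝ, ∀ (s : ℕ) (J : Subgroup G), (∃ t, ∀ x, 𝒬.q t x = 1 → x ∈ J) → (∀ x ∈ J, 𝒬.q s x = 1) →
      FiniteDimensional k (rinv (redS ρ (KB 𝒬 Y)) J) ∧
      (Module.finrank k (rinv (redS ρ (KB 𝒬 Y)) J) : ℝ) ≤
        ((Fintype.card R : ℝ) - n + C / (ℓ : ℝ) ^ s) * (J.index : ℝ) := by
  classical
  obtain ⟨A, hA, hv⟩ := exists_coords_mod 𝒯 (LY 𝒬 Y) (LY_sat 𝒬 Y) Y (fun p Ψ hΨ => hΨ p) hi
  -- the constants
  have hC : ∀ r : {r // r ∉ A}, ∃ v ∈ LY 𝒬 Y, (∀ r', r' ∉ A → r' ≠ r.1 → 𝒯.red (v r') = 0) ∧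
      ∃ C : ℝ, ∀ (s t : ℕ) (J : Subgroup G), s ≤ t → J ≤ (𝒬.q s).ker → (𝒬.q t).ker ≤ J →
        ∀ c : MonoidAlgebra ℤ G, pj 𝒬 t c = 𝒯.la.pi t (v r.1) →
        (1 - C / (ℓ : ℝ) ^ s) * (Nat.card (G ⧸ J) : ℝ) ≤
          (Module.finrank k (LinearMap.range (opJ (k := k) J c)) : ℝ) := by
    intro r
    obtain ⟨v, hvL, hv1, hv2⟩ := hv r.1 r.2
    obtain ⟨⟨s₀, hs₀⟩, hcompat⟩ := redk_ne 𝒬 k hv1
    obtain ⟨C, hC⟩ := rank_quot k G 𝒯.P 𝒯.pr 𝒬.q 𝒬.surj 𝒬.compat (fun s => ⟨𝒯.g s, 𝒯.ug s⟩)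
      (fun s => redk 𝒯 k s (𝒯.la.pi s (v r.1))) hcompat s₀ hs₀
    refine ⟨v, hvL, hv2, C, fun s t J hst h1 h2 c hc => ?_⟩
    exact hC s t J hst h1 h2 (MonoidAlgebra.mapRingHom G (Int.castRingHom k) c) (by rw [← map_pj, hc])
      (opJ J c) (fun f y => rfl)
  choose v hvL hv2 C hC using hC
  refine ⟨∑ r, C r, fun s J hJ hJs => ?_⟩
  obtain ⟨t₀, ht₀⟩ := hJ
  set t := max s t₀ with ht
  have hJt : ∀ x, 𝒬.q t x = 1 → x ∈ J := fun x hx => ht₀ x (q_down 𝒬 (le_max_right s t₀) x hx)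
  have hker : (𝒬.q t).ker ≤ J := fun x hx => hJt x hx
  have hfi : J.FiniteIndex := Subgroup.finiteIndex_of_le hker
  let _ : Fintype (G ⧸ J) := Fintype.ofFinite _
  have hcard : (Nat.card (G ⧸ J) : ℝ) = (J.index : ℝ) := rfl
  set V := rinv (redS ρ (KB 𝒬 Y)) J with hV
  have hinv : ∀ f : V, ∀ r x, ∀ j ∈ J, f.1 (r, x * j) = f.1 (r, x) := fun f => f.2.2
  -- the values at the representatives
  let ev : V →ₗ[k] (R → (G ⧸ J) → k) :=
    { toFun := fun f r y => f.1 (r, Quotient.out y)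
      map_add' := fun _ _ => rfl
      map_smul' := fun _ _ => rfl }
  have hev : ∀ f : V, ∀ r x, f.1 (r, x) = ev f r (QuotientGroup.mk x) := by
    intro f r x
    obtain ⟨u, hu⟩ := QuotientGroup.mk_out_eq_mul J x
    change _ = f.1 (r, Quotient.out (QuotientGroup.mk x : G ⧸ J))
    rw [hu, hinv f r x u u.2]
  have hevi : Function.Injective ev := by
    intro f f' h
    refine Subtype.ext (funext fun z => ?_)
    have h1 := hev f z.1 z.2
    have h2 := hev f' z.1 z.2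
    rw [h] at h1
    exact h1.trans h2.symm
  have hfd : FiniteDimensional k V := FiniteDimensional.of_injective ev hevi
  refine ⟨hfd, ?_⟩
  -- the coordinates in `A`
  let evA : V →ₗ[k] (A → (G ⧸ J) → k) :=
    { toFun := fun f r y => f.1 (r.1, Quotient.out y)
      map_add' := fun _ _ => rfl
      map_smul' := fun _ _ => rfl }
  have h1 := LinearMap.finrank_range_add_finrank_ker evA
  have h2 : Module.finrank k (LinearMap.range evA) ≤ A.card * J.index := by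
    refine (Submodule.finrank_le _).trans ?_
    rw [Module.finrank_pi_fintype]
    simp only [Module.finrank_fintype_fun_eq_card, Finset.sum_const, Finset.card_univ, Fintype.card_coe, smul_eq_mul]
    rw [Subgroup.index, Nat.card_eq_fintype_card]
  -- the other coordinates
  choose c hc using fun (r : {r // r ∉ A}) (r' : R) => pj_surj 𝒬 t (𝒯.la.pi t (v r r'))
  have hkey : ∀ r : {r // r ∉ A}, ∀ f : LinearMap.ker evA, opJ (k := k) J (c r r.1) (ev f.1 r.1) = 0 := by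
    intro r f
    have hfA : ∀ r' ∈ A, ∀ x, f.1.1 (r', x) = 0 := by
      intro r' hr' x
      rw [hev]
      exact congrFun (congrFun (LinearMap.mem_ker.1 f.2) ⟨r', hr'⟩) (QuotientGroup.mk x)
    obtain ⟨Φ, ⟨Ψ, hΨ1, hΨ2⟩, hΦ1, hΦ2⟩ := f.1.2.1
    have hn : ∀ r' x, ‖(Ψ r').1 x‖ ≤ 1 := fun r' x => by rw [← hΨ1]; exact hΦ1 _
    have hfΨ : ∀ r' x, ρ.app ((Ψ r').1 x) = f.1.1 (r', x) := fun r' x => by rw [← hΨ1]; exact (hΦ2 _).symm
    have hin : ∀ r' x j, 𝒬.q t j = 1 → ρ.app ((Ψ r').1 (x * j)) = ρ.app ((Ψ r').1 x) := by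
      intro r' x j hj
      rw [hfΨ, hfΨ]
      exact hinv f.1 r' x j (hJt j hj)
    funext y
    obtain ⟨x, rfl⟩ := QuotientGroup.mk_surjective y
    have h3 : opJ (k := k) J (c r r.1) (ev f.1 r.1) (QuotientGroup.mk x) =
        (c r r.1).coeff.sum fun g m => (m : k) * f.1.1 (r.1, g⁻¹ * x) :=
      opJ_mk J (c r r.1) (f := fun x => f.1.1 (r.1, x)) (fun x j hj => hinv f.1 r.1 x j hj) x
    rw [h3]
    have h4 : ∑ r', (uact 𝒬 (v r r') (Ψ r')).1 x = 0 := by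
      have h5 := congrFun (congrArg Subtype.val (hvL r Ψ hΨ2)) x
      rw [Submodule.coe_sum, Finset.sum_apply] at h5
      exact h5
    have h6 := fun r' => app_uact 𝒬 ρ (v r r') (Ψ r') (hn r') (hin r') (c r r') (hc r r') x
    have h7 : ∑ r', ρ.app ((uact 𝒬 (v r r') (Ψ r')).1 x) = 0 := by
      rw [← ρ.app_sum _ fun r' _ => (h6 r').1, h4, ρ.app_zero]
    have h8 : ∀ r', r' ≠ r.1 → ρ.app ((uact 𝒬 (v r r') (Ψ r')).1 x) = 0 := by
      intro r' hr'
      rw [(h6 r').2]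
      by_cases hA' : r' ∈ A
      · refine Finset.sum_eq_zero fun g _ => ?_
        change (((c r r').coeff g : ℤ) : k) * ρ.app ((Ψ r').1 (g⁻¹ * x)) = 0
        rw [hfΨ, hfA r' hA', mul_zero]
      · refine sum_zero 𝒬 (f := fun x => ρ.app ((Ψ r').1 x)) (hin r') ?_ x
        rw [hc r r']
        exact redk_zero k (hv2 r r' hA' hr') t
    rw [Finset.sum_eq_single r.1 (fun r' _ hr' => h8 r' hr') (fun h => absurd (Finset.mem_univ _) h),
      (h6 r.1).2] at h7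
    refine Eq.trans ?_ h7
    refine Finsupp.sum_congr fun g _ => ?_
    rw [hfΨ]
  let T : LinearMap.ker evA →ₗ[k] (∀ r : {r // r ∉ A}, LinearMap.ker (opJ (k := k) J (c r r.1))) :=
    LinearMap.pi fun r => LinearMap.codRestrict _
      ((LinearMap.proj r.1 ∘ₗ ev) ∘ₗ (LinearMap.ker evA).subtype) (fun f => LinearMap.mem_ker.2 (hkey r f))
  have hT : Function.Injective T := by
    intro f f' h
    refine Subtype.ext (hevi (funext fun r => ?_))
    by_cases hr : r ∈ A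
    · have e1 := congrFun (LinearMap.mem_ker.1 f.2) ⟨r, hr⟩
      have e2 := congrFun (LinearMap.mem_ker.1 f'.2) ⟨r, hr⟩
      exact e1.trans e2.symm
    · exact congrArg Subtype.val (congrFun h ⟨r, hr⟩)
  have h3 : Module.finrank k (LinearMap.ker evA) ≤
      ∑ r : {r // r ∉ A}, Module.finrank k (LinearMap.ker (opJ (k := k) J (c r r.1))) := by
    have h4 := LinearMap.finrank_le_finrank_of_injective hT
    rwa [Module.finrank_pi_fintype] at h4
  have h4 : ∀ r : {r // r ∉ A}, (Module.finrank k (LinearMap.ker (opJ (k := k) J (c r r.1))) : ℝ) ≤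
      C r / (ℓ : ℝ) ^ s * (J.index : ℝ) := by
    intro r
    have h5 := hC r s t J (le_max_left s t₀) (fun x hx => hJs x hx) hker (c r r.1) (hc r r.1)
    have h6 := LinearMap.finrank_range_add_finrank_ker (opJ (k := k) J (c r r.1))
    rw [Module.finrank_fintype_fun_eq_card] at h6
    have h7 : (Module.finrank k (LinearMap.range (opJ (k := k) J (c r r.1))) : ℝ) +
        (Module.finrank k (LinearMap.ker (opJ (k := k) J (c r r.1))) : ℝ) = (J.index : ℝ) := by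
      rw [← hcard, Nat.card_eq_fintype_card]
      exact_mod_cast h6
    rw [hcard] at h5
    nlinarith
  have h5 : (Module.finrank k V : ℝ) ≤ (A.card : ℝ) * (J.index : ℝ) +
      ∑ r : {r // r ∉ A}, C r / (ℓ : ℝ) ^ s * (J.index : ℝ) := by
    rw [← h1]
    push_cast
    refine add_le_add (by exact_mod_cast h2) ?_
    calc (Module.finrank k (LinearMap.ker evA) : ℝ) ≤
          ((∑ r : {r // r ∉ A}, Module.finrank k (LinearMap.ker (opJ (k := k) J (c r r.1))) : ℕ) : ℝ) := by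
            exact_mod_cast h3
      _ = ∑ r : {r // r ∉ A}, (Module.finrank k (LinearMap.ker (opJ (k := k) J (c r r.1))) : ℝ) := by push_cast; rfl
      _ ≤ _ := Finset.sum_le_sum fun r _ => h4 r
  refine h5.trans ?_
  rw [← Finset.sum_mul, ← Finset.sum_div, ← add_mul]
  refine mul_le_mul_of_nonneg_right ?_ (Nat.cast_nonneg _)
  have h6 : (A.card : ℝ) + (n : ℝ) ≤ (Fintype.card R : ℝ) := by exact_mod_cast hA
  linarith

end Pool.Agent.Lib.MP_666dc0_nt.PL
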