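import Pool.Agent.Lib.MP_666dc0_nt.PL.A1

/-!
# PL, A2: one step of the count

`H ⊴ P` of index `m`. Let `W₀|H` be the space of the restrictions `x ↦ w x` of the `w ∈ W₀` to `H` (`H ≤ P`), and
`W' = {w : P → k | ∀ c : P, (x ↦ w (c x)) ∈ W₀|H}`. Then `W₀ ≤ W'`, `W' ≤ W` (`hloc`), `m * dim (W₀|H) ≤ dim W'`,
`onW Z P W' = onW Z H (W₀|H)`, and the kernel of `onW Z P W → (I → W ⧸ W')` is `onW Z P W'`.
-/

namespace Pool.Agent.Lib.MP_666dc0_nt.PL

namespace A2

variable {k : Type} [Field k] {𝔾 : Type} [Group 𝔾] {P H : Subgroup 𝔾}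

/-- The restriction of functions on `P` to `H`. -/
def rst (hHP : H ≤ P) : (P → k) →ₗ[k] (H → k) where
  toFun w := fun x => w ⟨x, hHP x.2⟩
  map_add' _ _ := rfl
  map_smul' _ _ := rfl

theorem rst_apply (hHP : H ≤ P) (w : P → k) (x : H) : rst hHP w x = w ⟨x, hHP x.2⟩ := rfl

/-- The functions on `P` whose restrictions to all cosets of `H` are in `V`. -/
def Wp (hHP : H ≤ P) (V : Submodule k (H → k)) : Submodule k (P → k) where
  carrier := {w | ∀ c : P, (fun x : H => w (c * ⟨x, hHP x.2⟩)) ∈ V}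
  add_mem' h1 h2 c := V.add_mem (h1 c) (h2 c)
  zero_mem' _ := V.zero_mem
  smul_mem' a _ h c := V.smul_mem a (h c)

theorem mem_Wp {hHP : H ≤ P} {V : Submodule k (H → k)} {w : P → k} :
    w ∈ Wp hHP V ↔ ∀ c : P, (fun x : H => w (c * ⟨x, hHP x.2⟩)) ∈ V := Iff.rfl

theorem le_Wp (hHP : H ≤ P) (W₀ : Submodule k (P → k))
    (hW₀ : ∀ w ∈ W₀, ∀ q : P, (fun p => w (q * p)) ∈ W₀) : W₀ ≤ Wp hHP (W₀.map (rst hHP)) := by
  intro w hw c
  exact ⟨fun p => w (c * p), hW₀ w hw c, rfl⟩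

theorem map_stable (hHP : H ≤ P) (W₀ : Submodule k (P → k))
    (hW₀ : ∀ w ∈ W₀, ∀ q : P, (fun p => w (q * p)) ∈ W₀) (u : H → k) (hu : u ∈ W₀.map (rst hHP)) (h : H) :
    (fun x => u (h * x)) ∈ W₀.map (rst hHP) := by
  obtain ⟨w, hw, rfl⟩ := hu
  exact ⟨fun p => w (⟨h, hHP h.2⟩ * p), hW₀ w hw _, rfl⟩

theorem Wp_stable (hHP : H ≤ P) (V : Submodule k (H → k)) (w : P → k) (hw : w ∈ Wp hHP V) (q : P) :
    (fun p => w (q * p)) ∈ Wp hHP V := by
  intro c
  have h := hw (q * c)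
  simp only [mul_assoc] at h
  exact h

open Classical in
theorem Wp_le (hHP : H ≤ P) [(H.subgroupOf P).FiniteIndex] (W W₀ : Submodule k (P → k))
    (hW₀ : ∀ w ∈ W₀, ∀ q : P, (fun p => w (q * p)) ∈ W₀)
    (hloc : ∀ w ∈ W₀, ∀ c : P, (fun p : P => if ((c⁻¹ * p : P) : 𝔾) ∈ H then w p else 0) ∈ W) :
    Wp hHP (W₀.map (rst hHP)) ≤ W := by
  intro w hw
  haveI : Fintype (P ⧸ H.subgroupOf P) := Fintype.ofFinite _
  have key : ∀ c : P, (fun p : P => if ((c⁻¹ * p : P) : 𝔾) ∈ H then w p else 0) ∈ W := by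
    intro c
    obtain ⟨w₀, hw₀, h⟩ := hw c
    have h2 := hloc (fun p => w₀ (c⁻¹ * p)) (hW₀ w₀ hw₀ c⁻¹) c
    have h3 : (fun p : P => if ((c⁻¹ * p : P) : 𝔾) ∈ H then w₀ (c⁻¹ * p) else 0) =
        fun p : P => if ((c⁻¹ * p : P) : 𝔾) ∈ H then w p else 0 := by
      funext p
      by_cases hp : ((c⁻¹ * p : P) : 𝔾) ∈ H
      · rw [if_pos hp, if_pos hp]
        have h4 := congrFun h ⟨_, hp⟩
        rw [rst_apply] at h4
        have h5 : c * (⟨((c⁻¹ * p : P) : 𝔾), hHP hp⟩ : P) = p := by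
          have : (⟨((c⁻¹ * p : P) : 𝔾), hHP hp⟩ : P) = c⁻¹ * p := Subtype.ext rfl
          rw [this, mul_inv_cancel_left]
        simp only [h5] at h4
        exact h4
      · rw [if_neg hp, if_neg hp]
    rw [← h3]
    exact h2
  have hsum : w = ∑ q : P ⧸ H.subgroupOf P,
      (fun p : P => if (((Quotient.out q)⁻¹ * p : P) : 𝔾) ∈ H then w p else 0) := by
    funext p
    rw [Finset.sum_apply, Finset.sum_eq_single (p : P ⧸ H.subgroupOf P)]
    · rw [if_pos]
      have : (Quotient.out (p : P ⧸ H.subgroupOf P))⁻¹ * p ∈ H.subgroupOf P := by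
        rw [← QuotientGroup.eq, QuotientGroup.out_eq']
      exact Subgroup.mem_subgroupOf.1 this
    · intro q _ hq
      rw [if_neg]
      intro h
      apply hq
      have h2 : (Quotient.out q)⁻¹ * p ∈ H.subgroupOf P := Subgroup.mem_subgroupOf.2 h
      rw [← QuotientGroup.eq, QuotientGroup.out_eq'] at h2
      exact h2
    · intro h
      exact absurd (Finset.mem_univ _) h
  rw [hsum]
  exact W.sum_mem fun q _ => key _

theorem mul_finrank_le (hHP : H ≤ P) [(H.subgroupOf P).FiniteIndex] (V : Submodule k (H → k))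
    (hV : ∀ u ∈ V, ∀ h : H, (fun x => u (h * x)) ∈ V) [FiniteDimensional k (Wp hHP V)] [FiniteDimensional k V] :
    (H.subgroupOf P).index * Module.finrank k V ≤ Module.finrank k (Wp hHP V) := by
  haveI : Fintype (P ⧸ H.subgroupOf P) := Fintype.ofFinite _
  have hmem : ∀ p : P, (((Quotient.out (p : P ⧸ H.subgroupOf P))⁻¹ * p : P) : 𝔾) ∈ H := by
    intro p
    have : (Quotient.out (p : P ⧸ H.subgroupOf P))⁻¹ * p ∈ H.subgroupOf P := by
      rw [← QuotientGroup.eq, QuotientGroup.out_eq']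
    exact Subgroup.mem_subgroupOf.1 this
  have hcoset : ∀ (c : P) (x : H), ((c * ⟨x, hHP x.2⟩ : P) : P ⧸ H.subgroupOf P) = (c : P ⧸ H.subgroupOf P) := by
    intro c x
    rw [QuotientGroup.eq]
    rw [Subgroup.mem_subgroupOf]
    have : (((c * ⟨x, hHP x.2⟩)⁻¹ * c : P) : 𝔾) = (x : 𝔾)⁻¹ := by
      simp only [Subgroup.coe_mul, InvMemClass.coe_inv, mul_inv_rev]
      group
    rw [this]
    exact H.inv_mem x.2
  let Θ : (P ⧸ H.subgroupOf P → V) →ₗ[k] Wp hHP V :=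
    { toFun := fun u => ⟨fun p => (u (p : P ⧸ H.subgroupOf P)).1 ⟨_, hmem p⟩, by
        intro c
        have h1 := hV (u (c : P ⧸ H.subgroupOf P)).1 (u (c : P ⧸ H.subgroupOf P)).2 ⟨_, hmem c⟩
        have h2 : (fun x : H => (u ((c * ⟨x, hHP x.2⟩ : P) : P ⧸ H.subgroupOf P)).1
            ⟨_, hmem (c * ⟨x, hHP x.2⟩)⟩) =
            fun x : H => (u (c : P ⧸ H.subgroupOf P)).1 (⟨_, hmem c⟩ * x) := by
          funext x
          have h3 : (⟨_, hmem (c * ⟨x, hHP x.2⟩)⟩ : H) = ⟨_, hmem c⟩ * x := by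
            apply Subtype.ext
            simp only [hcoset, Subgroup.coe_mul, mul_assoc]
          rw [h3, hcoset]
        rw [h2]
        exact h1⟩
      map_add' := fun _ _ => rfl
      map_smul' := fun _ _ => rfl }
  have hinj : Function.Injective Θ := by
    rw [← LinearMap.ker_eq_bot, LinearMap.ker_eq_bot']
    intro u hu
    funext q
    apply Subtype.ext
    funext x
    have h1 := congrFun (congrArg Subtype.val hu) (Quotient.out q * ⟨x, hHP x.2⟩)
    change (u ((Quotient.out q * ⟨x, hHP x.2⟩ : P) : P ⧸ H.subgroupOf P)).1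
      ⟨_, hmem (Quotient.out q * ⟨x, hHP x.2⟩)⟩ = 0 at h1
    have h3 : (⟨_, hmem (Quotient.out q * ⟨x, hHP x.2⟩)⟩ : H) = x := by
      apply Subtype.ext
      simp only [hcoset, QuotientGroup.out_eq', Subgroup.coe_mul, InvMemClass.coe_inv, inv_mul_cancel_left]
    rw [h3, hcoset, QuotientGroup.out_eq'] at h1
    exact h1
  have h := LinearMap.finrank_le_finrank_of_injective hinj
  rw [Module.finrank_pi_fintype, Finset.sum_const, Finset.card_univ, smul_eq_mul] at h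
  rwa [Subgroup.index, Nat.card_eq_fintype_card]

theorem onW_eq (Z : Submodule k (𝔾 → k)) (hHP : H ≤ P) (V : Submodule k (H → k)) :
    onW Z P (Wp hHP V) = onW Z H V := by
  ext f
  rw [mem_onW, mem_onW]
  refine and_congr_right fun _ => ⟨fun h g => ?_, fun h g => ?_⟩
  · have h1 := h g 1
    simp only [one_mul] at h1
    exact h1
  · intro c
    have h1 := h (g * c)
    simp only [mul_assoc] at h1
    exact h1

/-- `onW Z P W → (I → W ⧸ W')`. -/
def Ξ (Z : Submodule k (𝔾 → k)) (W W' : Submodule k (P → k)) {I : Type} (x₀ : I → 𝔾) :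
    onW Z P W →ₗ[k] (I → W ⧸ W'.comap W.subtype) where
  toFun f := fun i => (W'.comap W.subtype).mkQ ⟨fun p => f.1 (x₀ i * p), f.2.2 (x₀ i)⟩
  map_add' f f' := by
    funext i
    exact (((W'.comap W.subtype).mkQ).map_add ⟨fun p => f.1 (x₀ i * p), f.2.2 (x₀ i)⟩
      ⟨fun p => f'.1 (x₀ i * p), f'.2.2 (x₀ i)⟩)
  map_smul' c f := by
    funext i
    exact (((W'.comap W.subtype).mkQ).map_smul c ⟨fun p => f.1 (x₀ i * p), f.2.2 (x₀ i)⟩)

theorem ker_Ξ (Z : Submodule k (𝔾 → k)) (W W' : Submodule k (P → k)) {I : Type} (x₀ : I → 𝔾)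
    (hx : ∀ g, ∃ i, ∃ q ∈ P, ∀ f ∈ Z, ∀ p ∈ P, f (g * p) = f (x₀ i * q * p))
    (hW' : ∀ w ∈ W', ∀ q : P, (fun p => w (q * p)) ∈ W') (f : onW Z P W) (hf : Ξ Z W W' x₀ f = 0) :
    f.1 ∈ onW Z P W' := by
  refine ⟨f.2.1, fun g => ?_⟩
  obtain ⟨i, q, hq, h⟩ := hx g
  have h1 := congrFun hf i
  change (W'.comap W.subtype).mkQ ⟨fun p => f.1 (x₀ i * p), f.2.2 (x₀ i)⟩ = 0 at h1
  rw [Submodule.mkQ_apply, Submodule.Quotient.mk_eq_zero, Submodule.mem_comap] at h1
  have h2 := hW' _ h1 ⟨q, hq⟩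
  have h3 : (fun p : P => f.1 (g * p)) = fun p : P => f.1 (x₀ i * ((⟨q, hq⟩ * p : P) : 𝔾)) := by
    funext p
    rw [h f.1 f.2.1 p p.2, Subgroup.coe_mul, mul_assoc]
  rw [h3]
  exact h2

end A2

open A2

variable {k : Type} [Field k] {ℓ : ℕ} [Fact ℓ.Prime] [CharP k ℓ]

open Classical in
theorem finrank_onW_step {𝔾 : Type} [Group 𝔾] (Z : Submodule k (𝔾 → k)) {P H : Subgroup 𝔾} (hHP : H ≤ P)
    (hn : ∀ p ∈ P, ∀ h ∈ H, p * h * p⁻¹ ∈ H) {m : ℕ} (hm : H.relIndex P = m) (hm0 : m ≠ 0)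
    (hZ : ∀ f ∈ Z, ∀ h ∈ H, (fun g => f (g * h)) ∈ Z) [FiniteDimensional k (inv Z H)]
    {I : Type} [Fintype I] (x₀ : I → 𝔾)
    (hx : ∀ g, ∃ i, ∃ q ∈ P, ∀ f ∈ Z, ∀ p ∈ P, f (g * p) = f (x₀ i * q * p))
    (N : Subgroup 𝔾) (hNH : N ≤ H) (hNn : ∀ h ∈ H, ∀ n ∈ N, h * n * h⁻¹ ∈ N) (hN : ∃ e : ℕ, N.relIndex H = ℓ ^ e)
    (W W₀ : Submodule k (P → k)) [FiniteDimensional k W] (hle : W₀ ≤ W)
    (hW : ∀ w ∈ W, ∀ q : P, (fun p => w (q * p)) ∈ W) (hW₀ : ∀ w ∈ W₀, ∀ q : P, (fun p => w (q * p)) ∈ W₀)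
    (hWN : ∀ w ∈ W, ∀ p : P, ∀ n : P, (n : 𝔾) ∈ N → w (p * n) = w p)
    (hloc : ∀ w ∈ W₀, ∀ c : P, (fun p : P => if ((c⁻¹ * p : P) : 𝔾) ∈ H then w p else 0) ∈ W) :
    FiniteDimensional k (onW Z P W) ∧
      m * Module.finrank k (onW Z P W) + m * Fintype.card I * Module.finrank k W₀ ≤
        Module.finrank k (inv Z H) * Module.finrank k W + m * Fintype.card I * Module.finrank k W := by
  haveI hfi : (H.subgroupOf P).FiniteIndex := ⟨by
    rw [show (H.subgroupOf P).index = m from hm]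
    exact hm0⟩
  haveI : FiniteDimensional k W₀ := Submodule.finiteDimensional_of_le hle
  set V : Submodule k (H → k) := W₀.map (rst hHP) with hVdef
  have hV : ∀ u ∈ V, ∀ h : H, (fun x => u (h * x)) ∈ V := map_stable hHP W₀ hW₀
  have hle' : Wp hHP V ≤ W := Wp_le hHP W W₀ hW₀ hloc
  have hle₀ : W₀ ≤ Wp hHP V := le_Wp hHP W₀ hW₀
  haveI : FiniteDimensional k (Wp hHP V) := Submodule.finiteDimensional_of_le hle'
  haveI : FiniteDimensional k V := inferInstanceAs (FiniteDimensional k (W₀.map (rst hHP)))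
  have h1 : m * Module.finrank k V ≤ Module.finrank k (Wp hHP V) := by
    have := mul_finrank_le hHP V hV
    rwa [show (H.subgroupOf P).index = m from hm] at this
  haveI hNnorm : (N.subgroupOf H).Normal := ⟨fun n hn' h => by
    rw [Subgroup.mem_subgroupOf] at hn' ⊢
    have := hNn h h.2 n hn'
    simpa using this⟩
  have hVN : ∀ w ∈ V, ∀ x, ∀ n ∈ N.subgroupOf H, w (x * n) = w x := by
    rintro _ ⟨w, hw, rfl⟩ x n hn'
    exact hWN w (hle hw) ⟨x, hHP x.2⟩ ⟨n, hHP n.2⟩ (Subgroup.mem_subgroupOf.1 hn')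
  obtain ⟨hfd, hfr⟩ := finrank_onW_le (ℓ := ℓ) Z H hZ (N.subgroupOf H) hN V hV hVN
  rw [← onW_eq Z hHP V] at hfd hfr
  haveI := hfd
  -- the map to the quotients
  have hker : ∀ f : onW Z P W, Ξ Z W (Wp hHP V) x₀ f = 0 → f.1 ∈ onW Z P (Wp hHP V) :=
    fun f hf => ker_Ξ Z W (Wp hHP V) x₀ hx (Wp_stable hHP V) f hf
  let κ : LinearMap.ker (Ξ Z W (Wp hHP V) x₀) →ₗ[k] onW Z P (Wp hHP V) :=
    { toFun := fun f => ⟨f.1.1, hker f.1 f.2⟩
      map_add' := fun _ _ => rfl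
      map_smul' := fun _ _ => rfl }
  have hκ : Function.Injective κ := by
    intro f f' h
    apply Subtype.ext
    apply Subtype.ext
    exact congrArg (fun y : onW Z P (Wp hHP V) => y.1) h
  haveI hkfd : FiniteDimensional k (LinearMap.ker (Ξ Z W (Wp hHP V) x₀)) :=
    FiniteDimensional.of_injective κ hκ
  have hkfr : Module.finrank k (LinearMap.ker (Ξ Z W (Wp hHP V) x₀)) ≤ Module.finrank k (onW Z P (Wp hHP V)) :=
    LinearMap.finrank_le_finrank_of_injective hκ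
  haveI : FiniteDimensional k (LinearMap.range (Ξ Z W (Wp hHP V) x₀)) := inferInstance
  haveI : Module.Finite k (onW Z P W ⧸ LinearMap.ker (Ξ Z W (Wp hHP V) x₀)) :=
    Module.Finite.equiv (LinearMap.quotKerEquivRange (Ξ Z W (Wp hHP V) x₀)).symm
  haveI hfdW : FiniteDimensional k (onW Z P W) :=
    Module.Finite.of_submodule_quotient (LinearMap.ker (Ξ Z W (Wp hHP V) x₀))
  refine ⟨hfdW, ?_⟩
  have hrn := LinearMap.finrank_range_add_finrank_ker (Ξ Z W (Wp hHP V) x₀)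
  have hrange : Module.finrank k (LinearMap.range (Ξ Z W (Wp hHP V) x₀)) ≤
      Fintype.card I * Module.finrank k (W ⧸ (Wp hHP V).comap W.subtype) := by
    refine (Submodule.finrank_le _).trans ?_
    haveI : Module.Free k (W ⧸ (Wp hHP V).comap W.subtype) := Module.Free.of_divisionRing k _
    rw [Module.finrank_pi_fintype, Finset.sum_const, Finset.card_univ, smul_eq_mul]
  have hquot := Submodule.finrank_quotient_add_finrank ((Wp hHP V).comap W.subtype)
  have hcomap : Module.finrank k ((Wp hHP V).comap W.subtype) = Module.finrank k (Wp hHP V) :=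
    LinearEquiv.finrank_eq (Submodule.comapSubtypeEquivOfLe hle')
  have hw0 : Module.finrank k W₀ ≤ Module.finrank k (Wp hHP V) := Submodule.finrank_mono hle₀
  rw [hcomap] at hquot
  -- arithmetic
  set F := Module.finrank k (onW Z P W)
  set a := Module.finrank k V
  set z := Module.finrank k (inv Z H)
  set w := Module.finrank k W
  set w' := Module.finrank k (Wp hHP V)
  set w0 := Module.finrank k W₀
  set c := Fintype.card I
  set q := Module.finrank k (W ⧸ (Wp hHP V).comap W.subtype)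
  set r := Module.finrank k (LinearMap.range (Ξ Z W (Wp hHP V) x₀))
  set κ' := Module.finrank k (LinearMap.ker (Ξ Z W (Wp hHP V) x₀))
  have hF : F ≤ c * q + z * a := by
    have : κ' ≤ z * a := hkfr.trans hfr
    omega
  have hq : q + w0 ≤ w := by omega
  have hma : m * a ≤ w := h1.trans (by omega)
  calc m * F + m * c * w0 ≤ m * (c * q + z * a) + m * c * w0 := by gcongr
    _ = m * c * (q + w0) + z * (m * a) := by ring
    _ ≤ m * c * w + z * w := by gcongr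
    _ = z * w + m * c * w := by ring

end Pool.Agent.Lib.MP_666dc0_nt.PL
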