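import Pool.Agent.Lib.MP_666dc0_nt.PL.R1
import Pool.Agent.Lib.MP_666dc0_nt.PL.A2

/-!
TASK A3. The count for spaces of functions with values in polynomials.

`ℬ` is a space of functions `Ψ : 𝔾 → (C → ℚ̄_ℓ)` with values in `Pol` and `Ψ (g p) x = χ(p) Ψ(g)(x p̂⁻¹)` for `p ∈ P`,
such that the reductions of the functions `g ↦ Ψ g y` (`y ∈ C`) are in `Z`.

Induction on `dim Pol`. If `Pol = 0` then `Pol₀ = 0` and `ℬ = 0`. Otherwise choose `y` and `q ∈ Pol` with `q y ≠ 0`. Put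
`Pol' = {q ∈ Pol | ∀ p ∈ P, q (y p̂⁻¹) = 0}`, `Pol₀' = Pol₀ ⊓ Pol'`, `ℬ' = {Ψ ∈ ℬ | ∀ g, Ψ g y = 0}`,
`V = {p ↦ χ(p) q (y p̂⁻¹) | q ∈ Pol}`, `V₀` the same for `Pol₀` (subspaces of `P → ℚ̄_ℓ`), `E = {g ↦ Ψ g y | Ψ ∈ ℬ}`.
* `dim Pol = dim Pol' + dim V`, `dim Pol₀ = dim Pol₀' + dim V₀`, `dim ℬ = dim ℬ' + dim E`, `dim Pol' < dim Pol`.
* `ℬ', Pol', Pol₀'` satisfy all hypotheses: for `Ψ ∈ ℬ'` and `p ∈ P`: `0 = Ψ (g p) y = χ(p) Ψ(g)(y p̂⁻¹)`, so `Ψ g ∈ Pol'`;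
  `Pol'` is stable under right translations by `p̂`; `ℋ y' c * q` vanishes where `q` does.
* `W = redS ρ V`, `W₀ = redS ρ V₀`: `dim W = dim V`, `dim W₀ = dim V₀`, `dim (redS ρ E) = dim E` (`finrank_redS`;
  `Maxi` by `hmax`, `hBmax` and `‖χ p‖ = 1`), and `redS ρ E ≤ onW Z P W` (`hBZ`, and `Ψ (g p) y = χ(p) Ψ(g)(y p̂⁻¹)`).
* Apply `finrank_onW_step` to `W`, `W₀`: left translation of `p ↦ χ(p) q (y p̂⁻¹)` by `q₀` is `χ(q₀) χ(p) q'(y p̂⁻¹)`,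
  `q' x = q (x q̂₀⁻¹)`; the `N` is `N t` for the `t` of `exists_common` (with `I = N`-elements: `m n p = p * n`), from
  `hsm` and `χ (p n) = χ p`; `hloc`: the reduction of `v₀` times the indicator function of `c H` is the reduction of
  `p ↦ (ℋ y c * q)(y p̂⁻¹) χ(p)` (`hℋ`, `app_mul`, `app_eq`; `‖(ℋ y c * q)(y p̂⁻¹) χ(p)‖ ≤ 1` because `‖ℋ y c (y p̂⁻¹)‖ ≤ 1`).
So `m dim E + m card I dim V₀ ≤ z dim V + m card I dim V`; add the induction hypothesis.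
-/

namespace Pool.Agent.Lib.MP_666dc0_nt.PL

open ZO

section aux

variable {ℓ : ℕ} [Fact ℓ.Prime] {k : Type} [Field k]

/-- Rank and nullity on a submodule. -/
private theorem finrank_split {K M N : Type} [Field K] [AddCommGroup M] [Module K M] [AddCommGroup N] [Module K N]
    (φ : M →ₗ[K] N) (V : Submodule K M) [FiniteDimensional K V] :
    FiniteDimensional K (V ⊓ LinearMap.ker φ : Submodule K M) ∧ FiniteDimensional K (V.map φ) ∧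
      Module.finrank K V = Module.finrank K (V ⊓ LinearMap.ker φ : Submodule K M) + Module.finrank K (V.map φ) := by
  have h1 : FiniteDimensional K (V ⊓ LinearMap.ker φ : Submodule K M) :=
    Submodule.finiteDimensional_of_le inf_le_left
  refine ⟨h1, inferInstance, ?_⟩
  have h2 := LinearMap.finrank_range_add_finrank_ker (φ.domRestrict V)
  have h3 : LinearMap.range (φ.domRestrict V) = V.map φ := by
    rw [LinearMap.domRestrict, LinearMap.range_comp, Submodule.range_subtype]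
  have h4 : (LinearMap.ker (φ.domRestrict V)).map V.subtype = V ⊓ LinearMap.ker φ := by
    ext x
    simp only [Submodule.mem_map, LinearMap.mem_ker, LinearMap.domRestrict_apply, Submodule.mem_inf]
    constructor
    · rintro ⟨z, hz, rfl⟩
      exact ⟨z.2, hz⟩
    · rintro ⟨hx, hz⟩
      exact ⟨⟨x, hx⟩, hz, rfl⟩
  have h5 : Module.finrank K (V ⊓ LinearMap.ker φ : Submodule K M) =
      Module.finrank K (LinearMap.ker (φ.domRestrict V)) := by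
    rw [← h4]
    exact Submodule.finrank_map_subtype_eq _ _
  rw [h3] at h2
  omega

/-- The map `q ↦ (p ↦ χ(p) q (y p̂⁻¹))`. -/
private noncomputable def ev {𝔾 C : Type} [Group 𝔾] [Group C] (ht : 𝔾 →* C) (P : Subgroup 𝔾) (χ : 𝔾 → PadicAlgCl ℓ) (y : C) :
    (C → PadicAlgCl ℓ) →ₗ[PadicAlgCl ℓ] (P → PadicAlgCl ℓ) where
  toFun q := fun p => χ p * q (y * (ht p)⁻¹)
  map_add' q q' := by
    funext p
    simp only [Pi.add_apply, mul_add]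
  map_smul' c q := by
    funext p
    simp only [Pi.smul_apply, smul_eq_mul, RingHom.id_apply]
    ring

/-- The map `Ψ ↦ (g ↦ Ψ g y)`. -/
private noncomputable def eB {𝔾 C : Type} (y : C) :
    (𝔾 → C → PadicAlgCl ℓ) →ₗ[PadicAlgCl ℓ] (𝔾 → PadicAlgCl ℓ) where
  toFun Ψ := fun g => Ψ g y
  map_add' _ _ := rfl
  map_smul' _ _ := rfl

variable (ρ : Red ℓ k)

private theorem redS_mono {X : Type} {V V' : Submodule (PadicAlgCl ℓ) (X → PadicAlgCl ℓ)} (h : V ≤ V') :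
    redS ρ V ≤ redS ρ V' := by
  rintro f ⟨v, hv, hv'⟩
  exact ⟨v, h hv, hv'⟩

private theorem mem_ker_ev {𝔾 C : Type} [Group 𝔾] [Group C] (ht : 𝔾 →* C) {P : Subgroup 𝔾} (χ : 𝔾 → PadicAlgCl ℓ)
    (hχ : ∀ p ∈ P, ‖χ p‖ = 1) (y : C) (q : C → PadicAlgCl ℓ) :
    q ∈ LinearMap.ker (ev ht P χ y) ↔ ∀ p ∈ P, q (y * (ht p)⁻¹) = 0 := by
  rw [LinearMap.mem_ker]
  constructor
  · intro h p hp
    have h1 : χ p * q (y * (ht p)⁻¹) = 0 := congrFun h ⟨p, hp⟩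
    have h2 : χ p ≠ 0 := by
      rw [← norm_ne_zero_iff, hχ p hp]
      exact one_ne_zero
    exact (mul_eq_zero.1 h1).resolve_left h2
  · intro h
    funext p
    change χ p * q (y * (ht p)⁻¹) = 0
    rw [h p p.2, mul_zero]

private theorem left_stable {𝔾 C : Type} [Group 𝔾] [Group C] (ht : 𝔾 →* C) {P : Subgroup 𝔾} (χ : 𝔾 → PadicAlgCl ℓ)
    (hχm : ∀ p ∈ P, ∀ q ∈ P, χ (p * q) = χ p * χ q) (y : C)
    (A : Submodule (PadicAlgCl ℓ) (C → PadicAlgCl ℓ))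
    (hR : ∀ q ∈ A, ∀ p ∈ P, (fun x => q (x * ht p)) ∈ A) :
    ∀ w ∈ redS ρ (A.map (ev ht P χ y)), ∀ q : P, (fun p => w (q * p)) ∈ redS ρ (A.map (ev ht P χ y)) := by
  rintro w ⟨v, ⟨q', hq', rfl⟩, hv1, hw⟩ q
  refine ⟨fun p => ev ht P χ y q' (q * p), ⟨χ q • (fun x => q' (x * ht ((q : 𝔾)⁻¹))),
    A.smul_mem _ (hR q' hq' _ (P.inv_mem q.2)), ?_⟩, fun p => hv1 _, fun p => hw _⟩
  funext p
  change χ p * (χ q * q' (y * (ht p)⁻¹ * ht ((q : 𝔾)⁻¹))) = χ ((q : 𝔾) * p) * q' (y * (ht ((q : 𝔾) * p))⁻¹)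
  rw [hχm q q.2 p p.2, map_mul, mul_inv_rev, map_inv, mul_assoc y]
  ring

end aux

open Classical in
theorem count {ℓ : ℕ} [Fact ℓ.Prime] {k : Type} [Field k] [CharP k ℓ] (ρ : Red ℓ k)
    {𝔾 C : Type} [Group 𝔾] [Group C] (ht : 𝔾 →* C) {P H : Subgroup 𝔾} (hHP : H ≤ P)
    (hn : ∀ p ∈ P, ∀ h ∈ H, p * h * p⁻¹ ∈ H) {m : ℕ} (hm : H.relIndex P = m) (hm0 : m ≠ 0)
    (χ : 𝔾 → PadicAlgCl ℓ) (hχ : ∀ p ∈ P, ‖χ p‖ = 1) (hχm : ∀ p ∈ P, ∀ q ∈ P, χ (p * q) = χ p * χ q)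
    (hχH : ∀ h ∈ H, χ h = 1)
    (Z : Submodule k (𝔾 → k)) (hZ : ∀ f ∈ Z, ∀ h ∈ H, (fun g => f (g * h)) ∈ Z) [FiniteDimensional k (inv Z H)]
    {I : Type} [Fintype I] (x₀ : I → 𝔾)
    (hx : ∀ g, ∃ i, ∃ q ∈ P, ∀ f ∈ Z, ∀ p ∈ P, f (g * p) = f (x₀ i * q * p))
    (N : ℕ → Subgroup 𝔾) (hN : IsFil ℓ H N)
    (ℋ : C → 𝔾 → C → PadicAlgCl ℓ)
    (hℋ : ∀ y, ∀ c ∈ P, ∀ p ∈ P, ‖ℋ y c (y * (ht p)⁻¹) - (if c⁻¹ * p ∈ H then 1 else 0)‖ < 1)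
    (Pol Pol₀ : Submodule (PadicAlgCl ℓ) (C → PadicAlgCl ℓ)) [FiniteDimensional (PadicAlgCl ℓ) Pol]
    (hle : Pol₀ ≤ Pol)
    (hR : ∀ q ∈ Pol, ∀ p ∈ P, (fun x => q (x * ht p)) ∈ Pol)
    (hR₀ : ∀ q ∈ Pol₀, ∀ p ∈ P, (fun x => q (x * ht p)) ∈ Pol₀)
    (hmul : ∀ y, ∀ c ∈ P, ∀ q ∈ Pol₀, (fun x => ℋ y c x * q x) ∈ Pol)
    (hmax : ∀ q ∈ Pol, ∀ y, ∃ p₀ ∈ P, ∀ p ∈ P, ‖q (y * (ht p)⁻¹)‖ ≤ ‖q (y * (ht p₀)⁻¹)‖)
    (hsm : ∀ q ∈ Pol, ∀ y, ∃ t, ∀ p ∈ P, ∀ n ∈ N t, ‖q (y * (ht (p * n))⁻¹) - q (y * (ht p)⁻¹)‖ < 1)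
    (ℬ : Submodule (PadicAlgCl ℓ) (𝔾 → C → PadicAlgCl ℓ)) [FiniteDimensional (PadicAlgCl ℓ) ℬ]
    (hmem : ∀ Ψ ∈ ℬ, ∀ g, Ψ g ∈ Pol)
    (heq : ∀ Ψ ∈ ℬ, ∀ g, ∀ p ∈ P, ∀ x, Ψ (g * p) x = χ p * Ψ g (x * (ht p)⁻¹))
    (hBmax : ∀ Ψ ∈ ℬ, ∀ y, ∃ g₀, ∀ g, ‖Ψ g y‖ ≤ ‖Ψ g₀ y‖)
    (hBZ : ∀ Ψ ∈ ℬ, ∀ y, (∀ g, ‖Ψ g y‖ ≤ 1) → (fun g => ρ.app (Ψ g y)) ∈ Z) :
    m * Module.finrank (PadicAlgCl ℓ) ℬ + m * Fintype.card I * Module.finrank (PadicAlgCl ℓ) Pol₀ ≤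
      Module.finrank k (inv Z H) * Module.finrank (PadicAlgCl ℓ) Pol +
        m * Fintype.card I * Module.finrank (PadicAlgCl ℓ) Pol := by
  suffices H : ∀ d : ℕ, ∀ (Pol Pol₀ : Submodule (PadicAlgCl ℓ) (C → PadicAlgCl ℓ)), FiniteDimensional (PadicAlgCl ℓ) Pol →
      Module.finrank (PadicAlgCl ℓ) Pol = d →
      Pol₀ ≤ Pol →
      (∀ q ∈ Pol, ∀ p ∈ P, (fun x => q (x * ht p)) ∈ Pol) →
      (∀ q ∈ Pol₀, ∀ p ∈ P, (fun x => q (x * ht p)) ∈ Pol₀) →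
      (∀ y, ∀ c ∈ P, ∀ q ∈ Pol₀, (fun x => ℋ y c x * q x) ∈ Pol) →
      (∀ q ∈ Pol, ∀ y, ∃ p₀ ∈ P, ∀ p ∈ P, ‖q (y * (ht p)⁻¹)‖ ≤ ‖q (y * (ht p₀)⁻¹)‖) →
      (∀ q ∈ Pol, ∀ y, ∃ t, ∀ p ∈ P, ∀ n ∈ N t, ‖q (y * (ht (p * n))⁻¹) - q (y * (ht p)⁻¹)‖ < 1) →
      ∀ (ℬ : Submodule (PadicAlgCl ℓ) (𝔾 → C → PadicAlgCl ℓ)), FiniteDimensional (PadicAlgCl ℓ) ℬ →
      (∀ Ψ ∈ ℬ, ∀ g, Ψ g ∈ Pol) →
      (∀ Ψ ∈ ℬ, ∀ g, ∀ p ∈ P, ∀ x, Ψ (g * p) x = χ p * Ψ g (x * (ht p)⁻¹)) →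
      (∀ Ψ ∈ ℬ, ∀ y, ∃ g₀, ∀ g, ‖Ψ g y‖ ≤ ‖Ψ g₀ y‖) →
      (∀ Ψ ∈ ℬ, ∀ y, (∀ g, ‖Ψ g y‖ ≤ 1) → (fun g => ρ.app (Ψ g y)) ∈ Z) →
      m * Module.finrank (PadicAlgCl ℓ) ℬ + m * Fintype.card I * Module.finrank (PadicAlgCl ℓ) Pol₀ ≤
        Module.finrank k (inv Z H) * Module.finrank (PadicAlgCl ℓ) Pol +
          m * Fintype.card I * Module.finrank (PadicAlgCl ℓ) Pol from
    H _ Pol Pol₀ ‹_› rfl hle hR hR₀ hmul hmax hsm ℬ ‹_› hmem heq hBmax hBZ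
  clear hmem heq hBmax hBZ hle hR hR₀ hmul hmax hsm
  intro d
  induction d using Nat.strong_induction_on with
  | _ d ih =>
    intro Pol Pol₀ hfd hd hle hR hR₀ hmul hmax hsm ℬ hfB hmem heq hBmax hBZ
    by_cases h0 : Pol = ⊥
    · have hP0 : Pol₀ = ⊥ := le_bot_iff.1 (h0 ▸ hle)
      have hB0 : ℬ = ⊥ := by
        rw [eq_bot_iff]
        intro Ψ hΨ
        rw [Submodule.mem_bot]
        funext g
        have := hmem Ψ hΨ g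
        rwa [h0, Submodule.mem_bot] at this
      subst h0 hP0 hB0
      simp
    obtain ⟨q, hq, hq0⟩ := Submodule.exists_mem_ne_zero_of_ne_bot h0
    obtain ⟨y, hy⟩ := Function.ne_iff.1 hq0
    have hfP0 : FiniteDimensional (PadicAlgCl ℓ) Pol₀ := Submodule.finiteDimensional_of_le hle
    obtain ⟨f1, f2, s1⟩ := finrank_split (ev ht P χ y) Pol
    obtain ⟨f3, f4, s2⟩ := finrank_split (ev ht P χ y) Pol₀
    obtain ⟨f5, f6, s3⟩ := finrank_split (eB y) ℬ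
    have hk := mem_ker_ev ht χ hχ y
    -- the dimension drops
    have hlt : Module.finrank (PadicAlgCl ℓ) (Pol ⊓ LinearMap.ker (ev ht P χ y) : Submodule _ _) < d := by
      rw [← hd]
      refine Submodule.finrank_lt_finrank_of_lt (lt_of_le_of_ne inf_le_left fun h => ?_)
      rw [inf_eq_left] at h
      have := (hk q).1 (h hq) 1 P.one_mem
      rw [map_one, inv_one, mul_one] at this
      exact hy this
    have ih' := ih _ hlt (Pol ⊓ LinearMap.ker (ev ht P χ y)) (Pol₀ ⊓ LinearMap.ker (ev ht P χ y)) f1 rfl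
      (inf_le_inf_right _ hle)
      (by
        rintro q ⟨hq, hq'⟩ p hp
        refine ⟨hR q hq p hp, (hk _).2 fun p' hp' => ?_⟩
        have := (hk q).1 hq' (p⁻¹ * p') (P.mul_mem (P.inv_mem hp) hp')
        rw [map_mul, mul_inv_rev, map_inv, inv_inv, ← mul_assoc] at this
        exact this)
      (by
        rintro q ⟨hq, hq'⟩ p hp
        refine ⟨hR₀ q hq p hp, (hk _).2 fun p' hp' => ?_⟩
        have := (hk q).1 hq' (p⁻¹ * p') (P.mul_mem (P.inv_mem hp) hp')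
        rw [map_mul, mul_inv_rev, map_inv, inv_inv, ← mul_assoc] at this
        exact this)
      (by
        rintro y' c hc q ⟨hq, hq'⟩
        refine ⟨hmul y' c hc q hq, (hk _).2 fun p' hp' => ?_⟩
        rw [(hk q).1 hq' p' hp', mul_zero])
      (fun q hq => hmax q hq.1) (fun q hq => hsm q hq.1)
      (ℬ ⊓ LinearMap.ker (eB y)) f5
      (by
        rintro Ψ ⟨hΨ, hΨ'⟩ g
        refine ⟨hmem Ψ hΨ g, (hk _).2 fun p hp => ?_⟩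
        have h1 : Ψ (g * p) y = 0 := congrFun (LinearMap.mem_ker.1 hΨ') (g * p)
        rw [heq Ψ hΨ g p hp y] at h1
        have h2 : χ p ≠ 0 := by
          rw [← norm_ne_zero_iff, hχ p hp]
          exact one_ne_zero
        exact (mul_eq_zero.1 h1).resolve_left h2)
      (fun Ψ hΨ => heq Ψ hΨ.1) (fun Ψ hΨ => hBmax Ψ hΨ.1) (fun Ψ hΨ => hBZ Ψ hΨ.1)
    -- the spaces of functions attain their maxima
    have hVV : Pol₀.map (ev ht P χ y) ≤ Pol.map (ev ht P χ y) := Submodule.map_mono hle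
    have hMV : Maxi (Pol.map (ev ht P χ y)) := by
      rintro v ⟨q, hq, rfl⟩
      obtain ⟨p₀, hp₀, hp⟩ := hmax q hq y
      refine ⟨⟨p₀, hp₀⟩, fun p => ?_⟩
      change ‖χ p * q (y * (ht p)⁻¹)‖ ≤ ‖χ p₀ * q (y * (ht p₀)⁻¹)‖
      rw [norm_mul, norm_mul, hχ p p.2, hχ p₀ hp₀, one_mul, one_mul]
      exact hp p p.2
    have hMV₀ : Maxi (Pol₀.map (ev ht P χ y)) := fun v hv => hMV v (hVV hv)
    have hME : Maxi (ℬ.map (eB y)) := by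
      rintro v ⟨Ψ, hΨ, rfl⟩
      exact hBmax Ψ hΨ y
    obtain ⟨g1, e1⟩ := finrank_redS ρ _ hMV
    obtain ⟨g2, e2⟩ := finrank_redS ρ _ hMV₀
    obtain ⟨g3, e3⟩ := finrank_redS ρ _ hME
    -- common level
    obtain ⟨t, ht'⟩ := exists_common ρ (fun t (n : P) => (n : 𝔾) ∈ N t) (fun n p => p * n)
      (fun t n hn => hN.anti t hn) (Pol.map (ev ht P χ y)) hMV (by
        rintro v ⟨q, hq, rfl⟩
        obtain ⟨t, h⟩ := hsm q hq y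
        refine ⟨t, fun n hn' p => ?_⟩
        change ‖χ ((p : 𝔾) * n) * q (y * (ht ((p : 𝔾) * n))⁻¹) - χ p * q (y * (ht p)⁻¹)‖ < 1
        rw [hχm p p.2 n n.2, hχH n (hN.le t hn'), mul_one, ← mul_sub, norm_mul, hχ p p.2, one_mul]
        exact h p p.2 n hn')
    -- the reductions
    have hle' : redS ρ (ℬ.map (eB y)) ≤ onW Z P (redS ρ (Pol.map (ev ht P χ y))) := by
      rintro f ⟨e, ⟨Ψ, hΨ, rfl⟩, he, hf⟩
      have hf' : f = fun g => ρ.app (Ψ g y) := funext hf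
      refine ⟨hf' ▸ hBZ Ψ hΨ y he, fun g => ⟨ev ht P χ y (Ψ g), ⟨Ψ g, hmem Ψ hΨ g, rfl⟩, fun p => ?_, fun p => ?_⟩⟩
      · change ‖χ p * Ψ g (y * (ht p)⁻¹)‖ ≤ 1
        rw [← heq Ψ hΨ g p p.2 y]
        exact he _
      · change f (g * p) = ρ.app (χ p * Ψ g (y * (ht p)⁻¹))
        rw [← heq Ψ hΨ g p p.2 y]
        exact hf _
    obtain ⟨g4, hstep⟩ := finrank_onW_step (ℓ := ℓ) Z hHP hn hm hm0 hZ x₀ hx (N t) (hN.le t) (hN.normal t) (hN.index t)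
      (redS ρ (Pol.map (ev ht P χ y))) (redS ρ (Pol₀.map (ev ht P χ y))) (redS_mono ρ hVV)
      (left_stable ρ ht χ hχm y Pol hR) (left_stable ρ ht χ hχm y Pol₀ hR₀)
      (fun w hw p n hn' => ht' n hn' w hw p)
      (by
        rintro w ⟨v, ⟨q, hq, rfl⟩, hv1, hw⟩ c
        have hv1' : ∀ p : P, ‖χ p * q (y * (ht p)⁻¹)‖ ≤ 1 := hv1
        have hw' : ∀ p : P, w p = ρ.app (χ p * q (y * (ht p)⁻¹)) := hw
        refine ⟨ev ht P χ y (fun x => ℋ y c x * q x), ⟨_, hmul y c c.2 q hq, rfl⟩, ?_, ?_⟩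
        all_goals
          intro p
          have e : ev ht P χ y (fun x => ℋ y c x * q x) p = ℋ y c (y * (ht p)⁻¹) * (χ p * q (y * (ht p)⁻¹)) := by
            change χ p * (ℋ y c (y * (ht p)⁻¹) * q (y * (ht p)⁻¹)) = _
            ring
          have h1 := hℋ y c c.2 p p.2
          have h2 : ‖(if (c : 𝔾)⁻¹ * (p : 𝔾) ∈ H then (1 : PadicAlgCl ℓ) else 0)‖ ≤ 1 := by
            split_ifs
            · rw [norm_one]
            · rw [norm_zero]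
              exact zero_le_one
          have h3 : ‖ℋ y c (y * (ht p)⁻¹)‖ ≤ 1 := by
            have := IsUltrametricDist.norm_add_le_max
              (ℋ y c (y * (ht p)⁻¹) - (if (c : 𝔾)⁻¹ * (p : 𝔾) ∈ H then (1 : PadicAlgCl ℓ) else 0))
              (if (c : 𝔾)⁻¹ * (p : 𝔾) ∈ H then (1 : PadicAlgCl ℓ) else 0)
            rw [sub_add_cancel] at this
            exact this.trans (max_le h1.le h2)
          rw [e]
        · rw [norm_mul]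
          exact mul_le_one₀ h3 (norm_nonneg _) (hv1' p)
        · rw [ρ.app_mul h3 (hv1' p), ← hw' p, ρ.app_eq h3 h1]
          change (if ((c⁻¹ * p : P) : 𝔾) ∈ H then w p else 0) = _
          by_cases h4 : (c : 𝔾)⁻¹ * (p : 𝔾) ∈ H
          · rw [if_pos h4, if_pos (by simpa using h4), ρ.app_one, one_mul]
          · rw [if_neg h4, if_neg (by simpa using h4), ρ.app_zero, zero_mul])
    have hfin := Submodule.finrank_mono hle'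
    rw [e3] at hfin
    rw [e1, e2] at hstep
    rw [s1, s2, s3]
    have h5 := Nat.mul_le_mul_left m hfin
    nlinarith [ih', hstep, h5]

end Pool.Agent.Lib.MP_666dc0_nt.PL
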