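import Pool.Agent.Lib.MP_666dc0_nt.FM.VDefs

/-!
# Types at `ℓ`, new forms, Følner sequences of weights
-/

open NumberField IsDedekindDomain
open scoped NumberField

namespace Pool.Agent.Lib.MP_666dc0_nt.PL

open WL ZO FM

variable {F : Type} [Field F] [NumberField F] {n : ℕ} {D : Datum F n}

/-- A type: a subgroup `J` of `G(𝔸_f)` with a representation `ρ` of dimension `r`. -/
structure RepType (D : Datum F n) where
  J : Subgroup D.Ad
  r : ℕ
  ρ : J →* GL (Fin r) ℂ

/-- The kernel of the representation of a type, as a subgroup of `G(𝔸_f)`. -/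
noncomputable def RepType.ker (T : RepType D) : Subgroup D.Ad := T.ρ.ker.map T.J.subtype

/-- `T = (J, ρ)` is a type at `ℓ`: the group `J` and the kernel of `ρ` are levels at `ℓ`. -/
structure IsRepTypeAt (ℓ : ℕ) (U : Subgroup D.Ad) (T : RepType D) : Prop where
  level : IsLevel ℓ U T.J
  ker : IsLevel ℓ U T.ker

/-- `f = (f_1, …, f_r)` is a form with weights in `Q`, of tame level `U` and of type `T = (J, ρ)`:
`f_i(g k) = ∑_j ρ(k)_{ji} f_j(g)` for `k ∈ J`. -/
structure IsRepForm (D : Datum F n) (Q : Submodule ℂ (D.Cpx → ℂ)) (U : Subgroup D.Ad) (T : RepType D)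
    (f : Fin T.r → D.Ad → D.Cpx → ℂ) : Prop where
  form : ∀ i, IsForm D Q (U ⊔ T.ker) (f i)
  type : ∀ (i : Fin T.r) (g : D.Ad) (k : T.J), f i (g * k) = ∑ j, (T.ρ k : Matrix (Fin T.r) (Fin T.r) ℂ) j i • f j g

/-- The dimension of the space spanned by the eigenforms of type `T` with weights in `Q` whose system of eigenvalues
has the property `p`. -/
noncomputable def dimR {U : Subgroup D.Ad} (S : Finset (HeightOneSpectrum (𝓞 F))) (Q : Submodule ℂ (D.Cpx → ℂ))
    (T : RepType D) (p : (∀ v, Hecke U v → ℂ) → Prop) : ℕ :=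
  Set.finrank ℂ {f | IsRepForm D Q U T f ∧ ∃ lam, (∀ i, IsEigen S (f i) lam) ∧ p lam}

/-- `f` is a new form with weights in `Q` and of level `U I`: its traces to the levels `U P j` vanish. -/
structure IsNewForm (D : Datum F n) (Q : Submodule ℂ (D.Cpx → ℂ)) (U I : Subgroup D.Ad) {k : ℕ}
    (P : Fin k → Subgroup D.Ad) (f : D.Ad → D.Cpx → ℂ) : Prop where
  form : IsForm D Q (U ⊔ I) f
  trace : ∀ j g, ∑ᶠ x : P j ⧸ I.subgroupOf (P j), f (g * (x.out : P j)) = 0

/-- The dimension of the span of the new eigenforms with weights in `Q` whose system has the property `p`. -/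
noncomputable def dimN (U : Subgroup D.Ad) (S : Finset (HeightOneSpectrum (𝓞 F))) (Q : Submodule ℂ (D.Cpx → ℂ))
    (I : Subgroup D.Ad) {k : ℕ} (P : Fin k → Subgroup D.Ad) (p : (∀ v, Hecke U v → ℂ) → Prop) : ℕ :=
  Set.finrank ℂ {f | IsNewForm D Q U I P f ∧ ∃ lam, IsEigen S f lam ∧ p lam}

/-- The systems `lam` and `lam₀` have the same residual system up to conjugation: the same integral polynomials in the
`ℓ`-integral Hecke operators have values in the maximal ideal of `ℤ̄_ℓ` at them. -/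
def SameRes (ℓ : ℕ) [Fact ℓ.Prime] {U : Subgroup D.Ad} (S : Finset (HeightOneSpectrum (𝓞 F))) (ι : ℂ ≃+* PadicAlgCl ℓ)
    (lam lam₀ : ∀ v, Hecke U v → ℂ) : Prop :=
  ∀ P : MvPolynomial (IX ℓ S U) ℤ, ‖ι (pval ℓ S lam P)‖ < 1 ↔ ‖ι (pval ℓ S lam₀ P)‖ < 1

/-- A Følner sequence of weights: for every `m` the elements of `Q d` whose products with all polynomial functions of
degree `≤ m` are in `Q d` form a subspace of relative dimension tending to one. -/
structure IsFolner (D : Datum F n) (Q : ℕ → Submodule ℂ (D.Cpx → ℂ)) : Prop where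
  weight : ∀ d, IsWeight D (Q d)
  lim : ∀ m, Filter.Tendsto (fun d => (Set.finrank ℂ {q | q ∈ Q d ∧ ∀ h ∈ polyLE D m, h * q ∈ Q d} : ℝ) /
    Module.finrank ℂ (Q d)) Filter.atTop (nhds 1)

end Pool.Agent.Lib.MP_666dc0_nt.PL
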