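import Mathlib

/-!
# PL, G2: growth of finitely generated commutative algebras

`V d = (span ({1} ∪ s)) ^ d`, `a d = finrank (V d)`, `M = #s`. For `1 ≤ d` and `M k ≤ d` the space `V d` is the sum of
`V (d - 1)` and the `x ^ k V (d - k)`, `x ∈ s` (pigeonhole), and `x ^ k V (d - k - 1) ≤ V (d - 1)`. So
`h d ≤ M h (d - k)` for `h d = a d - a (d - 1)`, and the sum over `k < d / M` is `(d / M) h d ≤ M a d`.
-/

namespace Pool.Agent.Lib.MP_666dc0_nt.PL

open scoped Pointwise

section

variable {A : Type} [CommRing A] [Algebra ℂ A]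

/-- The span of `1` and `s`. -/
def G2_V (s : Finset A) : Submodule ℂ A := Submodule.span ℂ ({1} ∪ (s : Set A))

theorem G2_one_le (s : Finset A) : (1 : Submodule ℂ A) ≤ G2_V s := by
  rw [Submodule.one_le]
  exact Submodule.subset_span (Set.mem_union_left _ rfl)

theorem G2_mono (s : Finset A) {d d' : ℕ} (h : d ≤ d') : G2_V s ^ d ≤ G2_V s ^ d' :=
  pow_le_pow_right' (G2_one_le s) h

theorem G2_finite (s : Finset A) (d : ℕ) : FiniteDimensional ℂ (G2_V s ^ d : Submodule ℂ A) := by
  refine Module.Finite.iff_fg.2 ?_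
  exact Submodule.FG.pow (Submodule.fg_span ((Set.finite_singleton _).union s.finite_toSet)) d

theorem G2_prod_mem (s : Finset A) {ι : Type} (T : Finset ι) (f : ι → A) (hf : ∀ i ∈ T, f i ∈ G2_V s) :
    ∏ i ∈ T, f i ∈ G2_V s ^ T.card := by
  classical
  induction T using Finset.induction_on with
  | empty =>
    rw [Finset.prod_empty, Finset.card_empty, pow_zero]
    exact Submodule.one_le.1 le_rfl
  | insert a T ha ih =>
    rw [Finset.prod_insert ha, Finset.card_insert_of_notMem ha, pow_succ']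
    exact Submodule.mul_mem_mul (hf a (Finset.mem_insert_self a T)) (ih fun i hi => hf i (Finset.mem_insert_of_mem hi))

/-- The pigeonhole principle for monomials. -/
theorem G2_cover (s : Finset A) {d k : ℕ} (hd : 1 ≤ d) (hk : s.card * k ≤ d) :
    G2_V s ^ d ≤ G2_V s ^ (d - 1) ⊔ ⨆ x ∈ s, (G2_V s ^ (d - k)).map (LinearMap.mulLeft ℂ (x ^ k)) := by
  classical
  have h0 : G2_V s ^ d = Submodule.span ℂ (({1} ∪ (s : Set A)) ^ d) := Submodule.span_pow _ _
  rw [h0, Submodule.span_le]
  intro a ha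
  obtain ⟨f, hf⟩ := Set.mem_pow.1 ha
  rw [List.prod_ofFn] at hf
  have hfV : ∀ i : Fin d, (f i : A) ∈ G2_V s := fun i => Submodule.subset_span (f i).2
  rw [← hf]
  by_cases h1 : ∃ i, (f i : A) = 1
  · obtain ⟨i, hi⟩ := h1
    rw [← Finset.mul_prod_erase Finset.univ (fun i => (f i : A)) (Finset.mem_univ i), hi, one_mul]
    refine Submodule.mem_sup_left ?_
    have h2 := G2_prod_mem s (Finset.univ.erase i) (fun i => (f i : A)) (fun i _ => hfV i)
    rwa [Finset.card_erase_of_mem (Finset.mem_univ i), Finset.card_univ, Fintype.card_fin] at h2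
  · push Not at h1
    have h2 : ∀ i, (f i : A) ∈ s := fun i => by
      rcases (f i).2 with h | h
      · exact absurd h (h1 i)
      · exact h
    have hne : s.Nonempty := ⟨_, h2 ⟨0, hd⟩⟩
    obtain ⟨y, hy, hyc⟩ := Finset.exists_le_card_fiber_of_mul_le_card_of_maps_to (s := (Finset.univ : Finset (Fin d)))
      (f := fun i => (f i : A)) (fun i _ => h2 i) hne (n := k) (by rwa [Finset.card_univ, Fintype.card_fin])
    obtain ⟨T, hT, hTc⟩ := Finset.exists_subset_card_eq hyc
    have h3 : ∏ i ∈ T, (f i : A) = y ^ k := by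
      rw [Finset.prod_congr rfl (g := fun _ => y) (fun i hi => (Finset.mem_filter.1 (hT hi)).2), Finset.prod_const, hTc]
    have h4 : ∏ i ∈ Tᶜ, (f i : A) ∈ G2_V s ^ (d - k) := by
      have h5 := G2_prod_mem s Tᶜ (fun i => (f i : A)) (fun i _ => hfV i)
      rwa [Finset.card_compl, hTc, Fintype.card_fin] at h5
    refine Submodule.mem_sup_right (Submodule.mem_iSup_of_mem y (Submodule.mem_iSup_of_mem hy ?_))
    rw [← Finset.prod_mul_prod_compl T (fun i => (f i : A)), h3]
    exact ⟨_, h4, rfl⟩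

/-- `a d`. -/
noncomputable def G2_a (s : Finset A) (d : ℕ) : ℕ := Module.finrank ℂ (G2_V s ^ d : Submodule ℂ A)

theorem G2_a_mono (s : Finset A) {d d' : ℕ} (h : d ≤ d') : G2_a s d ≤ G2_a s d' := by
  have := G2_finite s d'
  exact Submodule.finrank_mono (G2_mono s h)

theorem G2_finrank_map_mkQ {W : Type} [AddCommGroup W] [Module ℂ W] (p q : Submodule ℂ W) (h : p ≤ q)
    [FiniteDimensional ℂ q] : Module.finrank ℂ (q.map p.mkQ) + Module.finrank ℂ p = Module.finrank ℂ q := by
  have h1 := LinearMap.finrank_range_add_finrank_ker (p.mkQ.comp q.subtype)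
  have h2 : LinearMap.range (p.mkQ.comp q.subtype) = q.map p.mkQ := by
    rw [LinearMap.range_comp, Submodule.range_subtype]
  have h3 : Module.finrank ℂ (LinearMap.ker (p.mkQ.comp q.subtype)) = Module.finrank ℂ p := by
    have h4 : LinearMap.ker (p.mkQ.comp q.subtype) = p.comap q.subtype := by
      rw [LinearMap.ker_comp, Submodule.ker_mkQ]
    rw [h4]
    exact LinearEquiv.finrank_eq (Submodule.comapSubtypeEquivOfLe h)
  rw [h2, h3] at h1
  exact h1

/-- `h d ≤ M h (d - k)`. -/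
theorem G2_h (s : Finset A) {d k : ℕ} (hd : k + 1 ≤ d) (hk : s.card * k ≤ d) :
    G2_a s d + s.card * G2_a s (d - k - 1) ≤ G2_a s (d - 1) + s.card * G2_a s (d - k) := by
  classical
  have hfd := G2_finite s d
  have hfk := G2_finite s (d - k)
  have hfk1 := G2_finite s (d - k - 1)
  have hf1 := G2_finite s (d - 1)
  set π := (G2_V s ^ (d - 1) : Submodule ℂ A).mkQ with hπ
  have h1 := G2_finrank_map_mkQ (G2_V s ^ (d - 1)) (G2_V s ^ d) (G2_mono s (Nat.sub_le d 1))
  have h2 : (G2_V s ^ d).map π ≤ ⨆ x ∈ s, (G2_V s ^ (d - k)).map (π.comp (LinearMap.mulLeft ℂ (x ^ k))) := by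
    have h3 := Submodule.map_mono (f := π) (G2_cover s (by omega) hk)
    rw [Submodule.map_sup, Submodule.map_iSup] at h3
    have h4 : (G2_V s ^ (d - 1)).map π = ⊥ := by
      exact Submodule.mkQ_map_self _
    rw [h4, bot_sup_eq] at h3
    refine h3.trans (iSup_mono fun x => ?_)
    rw [Submodule.map_iSup]
    refine iSup_mono fun _ => ?_
    rw [Submodule.map_comp]
  have h5 : ∀ x ∈ s, Module.finrank ℂ ((G2_V s ^ (d - k)).map (π.comp (LinearMap.mulLeft ℂ (x ^ k)))) + G2_a s (d - k - 1) ≤ G2_a s (d - k) := by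
    intro x hx
    have h6 := LinearMap.finrank_range_add_finrank_ker ((π.comp (LinearMap.mulLeft ℂ (x ^ k))).comp (G2_V s ^ (d - k)).subtype)
    have h7 : LinearMap.range ((π.comp (LinearMap.mulLeft ℂ (x ^ k))).comp (G2_V s ^ (d - k)).subtype) =
        (G2_V s ^ (d - k)).map (π.comp (LinearMap.mulLeft ℂ (x ^ k))) := by
      rw [LinearMap.range_comp, Submodule.range_subtype]
    rw [h7] at h6
    have h8 : G2_a s (d - k - 1) ≤ Module.finrank ℂ (LinearMap.ker ((π.comp (LinearMap.mulLeft ℂ (x ^ k))).comp (G2_V s ^ (d - k)).subtype)) := by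
      have h9 : Module.finrank ℂ ((G2_V s ^ (d - k - 1)).comap (G2_V s ^ (d - k)).subtype) = G2_a s (d - k - 1) :=
        LinearEquiv.finrank_eq (Submodule.comapSubtypeEquivOfLe (G2_mono s (Nat.sub_le _ _)))
      rw [← h9]
      refine Submodule.finrank_mono fun w hw => ?_
      rw [LinearMap.mem_ker, LinearMap.comp_apply, LinearMap.comp_apply, LinearMap.mulLeft_apply, hπ, Submodule.mkQ_apply,
        Submodule.Quotient.mk_eq_zero]
      have h10 : (w : A) ∈ G2_V s ^ (d - k - 1) := hw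
      have h11 : d - 1 = k + (d - k - 1) := by omega
      rw [Submodule.subtype_apply, h11, pow_add]
      exact Submodule.mul_mem_mul (Submodule.pow_mem_pow _ (Submodule.subset_span (Set.mem_union_right _ hx)) k) h10
    unfold G2_a at h8 ⊢
    omega
  have h6 : ∀ T : Finset A, T ⊆ s → Module.finrank ℂ (⨆ x ∈ T, (G2_V s ^ (d - k)).map (π.comp (LinearMap.mulLeft ℂ (x ^ k))) : Submodule ℂ (A ⧸ (G2_V s ^ (d - 1)))) + T.card * G2_a s (d - k - 1) ≤ T.card * G2_a s (d - k) ∧ FiniteDimensional ℂ (⨆ x ∈ T, (G2_V s ^ (d - k)).map (π.comp (LinearMap.mulLeft ℂ (x ^ k))) : Submodule ℂ (A ⧸ (G2_V s ^ (d - 1)))) := by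
    intro T
    induction T using Finset.induction_on with
    | empty =>
      intro _
      have h7 : (⨆ x ∈ (∅ : Finset A), (G2_V s ^ (d - k)).map (π.comp (LinearMap.mulLeft ℂ (x ^ k))) : Submodule ℂ (A ⧸ (G2_V s ^ (d - 1)))) = ⊥ := by
        simp
      rw [h7, finrank_bot]
      exact ⟨by simp, inferInstance⟩
    | insert a T ha ih =>
      intro hT
      obtain ⟨i1, i2⟩ := ih (fun x hx => hT (Finset.mem_insert_of_mem hx))
      have i3 := h5 a (hT (Finset.mem_insert_self a T))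
      rw [Finset.iSup_insert, Finset.card_insert_of_notMem ha]
      refine ⟨?_, inferInstance⟩
      have i4 := Submodule.finrank_add_le_finrank_add_finrank ((G2_V s ^ (d - k)).map (π.comp (LinearMap.mulLeft ℂ (a ^ k))))
        (⨆ x ∈ T, (G2_V s ^ (d - k)).map (π.comp (LinearMap.mulLeft ℂ (x ^ k))) : Submodule ℂ (A ⧸ (G2_V s ^ (d - 1))))
      rw [add_mul, add_mul, one_mul, one_mul]
      omega
  obtain ⟨h7, h8⟩ := h6 s subset_rfl
  have h9 := Submodule.finrank_mono h2
  rw [← hπ] at h1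
  unfold G2_a at h7 ⊢
  omega

/-- The sum of the inequalities `h d ≤ M h (d - k)` for `k < K`. -/
theorem G2_sum (s : Finset A) {d : ℕ} (K : ℕ) (hK : K ≤ d) (hM : s.card * K ≤ d) :
    K * G2_a s d + s.card * G2_a s (d - K) ≤ K * G2_a s (d - 1) + s.card * G2_a s d := by
  induction K with
  | zero => simp
  | succ K ih =>
    have h1 := ih (by omega) ((Nat.mul_le_mul_left _ (Nat.le_succ K)).trans hM)
    have h2 := G2_h s hK ((Nat.mul_le_mul_left _ (Nat.le_succ K)).trans hM)
    rw [Nat.sub_sub] at h2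
    rw [add_mul, add_mul, one_mul, one_mul]
    omega

theorem G2_a_pos [Nontrivial A] (s : Finset A) (d : ℕ) : 0 < G2_a s d := by
  have := G2_finite s d
  refine Module.finrank_pos_iff_exists_ne_zero.2 ⟨⟨1, ?_⟩, ?_⟩
  · have h := G2_mono s (Nat.zero_le d)
    rw [pow_zero] at h
    exact h (Submodule.one_le.1 le_rfl)
  · intro h
    exact one_ne_zero (congrArg Subtype.val h)

theorem G2_tendsto_one [Nontrivial A] (s : Finset A) :
    Filter.Tendsto (fun d : ℕ => (G2_a s (d - 1) : ℝ) / G2_a s d) Filter.atTop (nhds 1) := by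
  have h1 : Filter.Tendsto (fun d : ℕ => d / (s.card + 1)) Filter.atTop Filter.atTop :=
    Filter.tendsto_atTop_atTop.2 fun b => ⟨b * (s.card + 1), fun a ha => (Nat.le_div_iff_mul_le (Nat.succ_pos _)).2 ha⟩
  have h2 : Filter.Tendsto (fun d : ℕ => (1 : ℝ) - (s.card : ℝ) / ((d / (s.card + 1) : ℕ) : ℝ)) Filter.atTop (nhds 1) := by
    have h3 : Filter.Tendsto (fun d : ℕ => (s.card : ℝ) / ((d / (s.card + 1) : ℕ) : ℝ)) Filter.atTop (nhds 0) :=
      tendsto_const_nhds.div_atTop (tendsto_natCast_atTop_atTop.comp h1)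
    simpa using tendsto_const_nhds.sub h3
  refine tendsto_of_tendsto_of_tendsto_of_le_of_le' h2 tendsto_const_nhds ?_ ?_
  · filter_upwards [Filter.eventually_ge_atTop (s.card + 1)] with d hd
    have hpos : (0 : ℝ) < G2_a s d := Nat.cast_pos.2 (G2_a_pos s d)
    set K := d / (s.card + 1) with hK
    have hK1 : 1 ≤ K := (Nat.one_le_div_iff (Nat.succ_pos _)).2 hd
    have hKpos : (0 : ℝ) < K := Nat.cast_pos.2 hK1
    have hK2 : (s.card + 1) * K ≤ d := Nat.mul_div_le d _
    have h3 := G2_sum s (d := d) K (by nlinarith [Nat.zero_le (s.card * K)]) (by nlinarith)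
    have h4 : (K : ℝ) * G2_a s d + s.card * G2_a s (d - K) ≤ K * G2_a s (d - 1) + s.card * G2_a s d := by
      exact_mod_cast h3
    have h5 : (0 : ℝ) ≤ s.card * G2_a s (d - K) := by positivity
    rw [le_div_iff₀ hpos, sub_mul, one_mul, div_mul_eq_mul_div, sub_le_iff_le_add, ← sub_le_iff_le_add', le_div_iff₀ hKpos]
    nlinarith
  · filter_upwards with d
    exact div_le_one_of_le₀ (Nat.cast_le.2 (G2_a_mono s (Nat.sub_le d 1))) (Nat.cast_nonneg _)

end

theorem tendsto_growth {A : Type} [CommRing A] [Nontrivial A] [Algebra ℂ A] (s : Finset A) (m : ℕ) :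
    Filter.Tendsto (fun d : ℕ => (Module.finrank ℂ ((Submodule.span ℂ ({1} ∪ (s : Set A))) ^ (d - m) : Submodule ℂ A) : ℝ) /
      Module.finrank ℂ ((Submodule.span ℂ ({1} ∪ (s : Set A))) ^ d : Submodule ℂ A)) Filter.atTop (nhds 1) := by
  change Filter.Tendsto (fun d : ℕ => (G2_a s (d - m) : ℝ) / G2_a s d) Filter.atTop (nhds 1)
  induction m with
  | zero =>
    refine tendsto_const_nhds.congr fun d => ?_
    rw [Nat.sub_zero, div_self (Nat.cast_ne_zero.2 (G2_a_pos s d).ne')]
  | succ m ih =>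
    have h1 := ((G2_tendsto_one s).comp (Filter.tendsto_sub_atTop_nat m)).mul ih
    rw [one_mul] at h1
    refine h1.congr fun d => ?_
    have h2 : (G2_a s (d - m) : ℝ) ≠ 0 := Nat.cast_ne_zero.2 (G2_a_pos s _).ne'
    rw [Function.comp_apply, div_mul_div_comm, mul_comm (G2_a s (d - m - 1) : ℝ), mul_div_mul_left _ _ h2, Nat.sub_sub]

end Pool.Agent.Lib.MP_666dc0_nt.PL
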