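import Pool.Agent.Lib.MP_666dc0_nt.Mg.G082
import Pool.Agent.Lib.MP_666dc0_nt.PL.G2

/-!
# PL, G3: spaces of density one give Følner sequences
-/

open NumberField IsDedekindDomain
open scoped NumberField

namespace Pool.Agent.Lib.MP_666dc0_nt.PL

open WL ZO

section Growth

variable {A : Type*} [CommRing A] [Algebra ℂ A]

/-- Rank and nullity for the multiplications with a basis of `V`. -/
private theorem g3_codim (R W N V : Submodule ℂ A) [FiniteDimensional ℂ W] [FiniteDimensional ℂ N]
    [FiniteDimensional ℂ V] (hVN : V * N ≤ W) :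
    ∃ K : Submodule ℂ A, K ≤ N ∧ (∀ q ∈ K, ∀ h ∈ V, h * q ∈ R) ∧
      Module.finrank ℂ N + Module.finrank ℂ V * Module.finrank ℂ (R ⊓ W : Submodule ℂ A) ≤
        Module.finrank ℂ K + Module.finrank ℂ V * Module.finrank ℂ W := by
  have hb := Module.finBasis ℂ V
  set M := Module.finrank ℂ V with hM
  -- the map `π : W → A ⧸ R` and its range
  let π : W →ₗ[ℂ] A ⧸ R := R.mkQ.comp W.subtype
  have h1 : Module.finrank ℂ (LinearMap.range π) + Module.finrank ℂ (R ⊓ W : Submodule ℂ A) = Module.finrank ℂ W := by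
    rw [← LinearMap.finrank_range_add_finrank_ker π]
    congr 1
    have h2 : LinearMap.ker π = Submodule.comap W.subtype (R ⊓ W) := by
      ext x
      change R.mkQ (x : A) = 0 ↔ (x : A) ∈ R ⊓ W
      rw [Submodule.mkQ_apply, Submodule.Quotient.mk_eq_zero]
      exact ⟨fun h => ⟨h, x.2⟩, fun h => h.1⟩
    rw [h2]
    exact (Submodule.comapSubtypeEquivOfLe (inf_le_right : R ⊓ W ≤ W)).finrank_eq.symm
  let Φ : N →ₗ[ℂ] (Fin M → LinearMap.range π) := LinearMap.pi fun i =>
    { toFun := fun q => ⟨π ⟨(hb i : A) * (q : A), hVN (Submodule.mul_mem_mul (hb i).2 q.2)⟩, LinearMap.mem_range_self _ _⟩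
      map_add' := fun q q' => by
        apply Subtype.ext
        change R.mkQ ((hb i : A) * ((q : A) + (q' : A))) = R.mkQ ((hb i : A) * (q : A)) + R.mkQ ((hb i : A) * (q' : A))
        rw [mul_add, map_add]
      map_smul' := fun c q => by
        apply Subtype.ext
        change R.mkQ ((hb i : A) * (c • (q : A))) = c • R.mkQ ((hb i : A) * (q : A))
        rw [mul_smul_comm, map_smul] }
  have h3 := LinearMap.finrank_range_add_finrank_ker Φ
  have h4 : Module.finrank ℂ (LinearMap.range Φ) ≤ M * Module.finrank ℂ (LinearMap.range π) := by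
    refine (Submodule.finrank_le _).trans ?_
    rw [Module.finrank_pi_fintype, Finset.sum_const, Finset.card_univ, Fintype.card_fin, smul_eq_mul]
  refine ⟨(LinearMap.ker Φ).map N.subtype, ?_, ?_, ?_⟩
  · rintro _ ⟨q, -, rfl⟩
    exact q.2
  · rintro _ ⟨q, hq, rfl⟩ h hh
    have h5 : ∀ i, (hb i : A) * (q : A) ∈ R := by
      intro i
      have h6 := congrArg Subtype.val (congrFun (LinearMap.mem_ker.1 hq) i)
      change R.mkQ ((hb i : A) * (q : A)) = 0 at h6
      rwa [Submodule.mkQ_apply, Submodule.Quotient.mk_eq_zero] at h6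
    have h7 : h = ∑ i, hb.repr ⟨h, hh⟩ i • (hb i : A) := by
      have h8 := congrArg Subtype.val (hb.sum_repr ⟨h, hh⟩)
      rw [Submodule.coe_sum] at h8
      exact h8.symm
    change h * (q : A) ∈ R
    rw [h7, Finset.sum_mul]
    refine Submodule.sum_mem _ fun i _ => ?_
    rw [smul_mul_assoc]
    exact R.smul_mem _ (h5 i)
  · have h5 : Module.finrank ℂ ((LinearMap.ker Φ).map N.subtype) = Module.finrank ℂ (LinearMap.ker Φ) :=
      LinearEquiv.finrank_eq (Submodule.equivMapOfInjective _ N.injective_subtype _).symm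
    rw [h5]
    nlinarith

end Growth

variable {F : Type} [Field F] [NumberField F] {n : ℕ}

private theorem g3_one_mem (D : Datum F n) (d : ℕ) : (1 : D.Cpx → ℂ) ∈ polyLE D d := by
  refine polyLE_mono (Nat.zero_le d) ?_
  unfold polyLE
  rw [pow_zero]
  exact Submodule.one_le.1 le_rfl

private theorem g3_pos (D : Datum F n) (d : ℕ) : 0 < Module.finrank ℂ (polyLE D d) := by
  have h3 : FiniteDimensional ℂ (polyLE D d) := finiteDimensional_polyLE d
  have h6 : Nontrivial (polyLE D d) := ⟨⟨⟨1, g3_one_mem D d⟩, 0, fun h => by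
    have h7 := congrFun (congrArg Subtype.val h) 1
    change (1 : ℂ) = 0 at h7
    exact one_ne_zero h7⟩⟩
  exact Module.finrank_pos

private theorem g3_growth (D : Datum F n) (m : ℕ) :
    Filter.Tendsto (fun d : ℕ => (Module.finrank ℂ (polyLE D (d - m)) : ℝ) / Module.finrank ℂ (polyLE D d))
      Filter.atTop (nhds 1) := by
  have hfin : ({p | ∃ τ i j, p = coord D τ i j} : Set (D.Cpx → ℂ)).Finite := by
    refine (Set.finite_range
      (fun t : (F →+* ℂ) × Fin n × Fin n => coord D t.1 t.2.1 t.2.2)).subset ?_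
    rintro p ⟨τ, i, j, rfl⟩
    exact ⟨(τ, i, j), rfl⟩
  have h := tendsto_growth hfin.toFinset m
  rw [Set.Finite.coe_toFinset] at h
  exact h

theorem isFolner_of_tendsto {D : Datum F n} {Q : ℕ → Submodule ℂ (D.Cpx → ℂ)} (hQ : ∀ d, IsWeight D (Q d))
    (hle : ∀ d, Q d ≤ polyLE D d)
    (h : Filter.Tendsto (fun d : ℕ => (Module.finrank ℂ (Q d) : ℝ) / Module.finrank ℂ (polyLE D d)) Filter.atTop (nhds 1)) :
    IsFolner D Q := by
  have hfd : ∀ d, FiniteDimensional ℂ (polyLE D d) := fun d => finiteDimensional_polyLE d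
  have hQfd : ∀ d, FiniteDimensional ℂ (Q d) := fun d => by
    have := hfd d
    exact Submodule.finiteDimensional_of_le (hle d)
  refine isFolner_iff.2 ⟨hQ, fun m => ?_⟩
  set a : ℕ → ℝ := fun d => (Module.finrank ℂ (polyLE D d) : ℝ) with ha
  set c : ℕ → ℝ := fun d => (Module.finrank ℂ (Q d) : ℝ) with hc
  have hapos : ∀ d, 0 < a d := fun d => Nat.cast_pos.2 (g3_pos D d)
  have h1 : Filter.Tendsto (fun d : ℕ => a (d - m) / a d) Filter.atTop (nhds 1) := g3_growth D m
  have h2 : Filter.Tendsto (fun d : ℕ => c d / a d) Filter.atTop (nhds 1) := h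
  have h3 : Filter.Tendsto (fun d : ℕ => (a (d - m) / a d + a m * (c d / a d - 1)) / (c d / a d)) Filter.atTop (nhds 1) := by
    have h4 := (h1.add ((h2.sub_const 1).const_mul (a m))).div h2 one_ne_zero
    rw [sub_self, mul_zero, add_zero, div_one] at h4
    exact h4
  have hcore : ∀ d, core (Q d) m ≤ Q d := fun d q hq => hq.1
  refine tendsto_of_tendsto_of_tendsto_of_le_of_le' h3 tendsto_const_nhds ?_ ?_
  · filter_upwards [Filter.eventually_ge_atTop m] with d hd
    have i1 := hfd d
    have i2 := hfd (d - m)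
    have i3 := hfd m
    have i5 := hQfd d
    have hmul : polyLE D m * polyLE D (d - m) ≤ polyLE D d := by
      unfold polyLE
      rw [← pow_add, Nat.add_sub_cancel' hd]
    obtain ⟨K, hK1, hK2, hK3⟩ := g3_codim (Q d) (polyLE D d) (polyLE D (d - m)) (polyLE D m) hmul
    rw [inf_eq_left.2 (hle d)] at hK3
    have hK : K ≤ core (Q d) m := by
      intro q hq
      have h1q : q ∈ Q d := by
        have h2 := hK2 q hq 1 (g3_one_mem D m)
        rwa [one_mul] at h2
      exact ⟨h1q, fun h hh => hK2 q hq h hh⟩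
    have i4 : FiniteDimensional ℂ (core (Q d) m) := Submodule.finiteDimensional_of_le (hcore d)
    have h5 : (Module.finrank ℂ K : ℝ) ≤ Module.finrank ℂ (core (Q d) m) := by
      exact_mod_cast Submodule.finrank_mono hK
    have h6 : a (d - m) + a m * c d ≤ Module.finrank ℂ K + a m * a d := by
      rw [hc, ha]
      beta_reduce
      exact_mod_cast hK3
    have h7 : (Module.finrank ℂ (core (Q d) m) : ℝ) / c d =
        (Module.finrank ℂ (core (Q d) m) : ℝ) / a d / (c d / a d) :=
      (div_div_div_cancel_right₀ (hapos d).ne' _ _).symm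
    change (a (d - m) / a d + a m * (c d / a d - 1)) / (c d / a d) ≤ (Module.finrank ℂ (core (Q d) m) : ℝ) / c d
    rw [h7]
    refine div_le_div_of_nonneg_right ?_ (div_nonneg (Nat.cast_nonneg _) (hapos d).le)
    have h8 : a (d - m) / a d + a m * (c d / a d - 1) = (a (d - m) + a m * (c d - a d)) / a d := by
      have := (hapos d).ne'
      field_simp
    rw [h8]
    refine div_le_div_of_nonneg_right ?_ (hapos d).le
    linarith
  · filter_upwards with d
    have := hQfd d
    exact div_le_one_of_le₀ (Nat.cast_le.2 (Submodule.finrank_mono (hcore d))) (Nat.cast_nonneg _)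

end Pool.Agent.Lib.MP_666dc0_nt.PL
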