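import Pool.Agent.Lib.MP_666dc0_nt.PL.RDefs
import Pool.Agent.Lib.MP_666dc0_nt.Mg.G075

/-!
TASK A1. Functions whose restrictions to the cosets of `H` are in a finite-dimensional space `W`.

`H` is a group with a normal subgroup `N` of index a power of `ℓ`, `k` has characteristic `ℓ`, and all `w ∈ W` are right
invariant under `N` (hence left invariant: `w (n x) = w (x (x⁻¹ n x))`).

`exists_hyperplane`: `H` acts on `W` by `(h w)(x) = w(h⁻¹ x)`, and `N` acts trivially, so the finite `ℓ`-group `H ⧸ N`
acts on `W` and on the dual space `Module.Dual k W ≠ 0`, which therefore has a non-zero fixed vector `ψ`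
(`finrank_le_card_mul_invariants` of `ZO/P1.lean`, or Mathlib). A linear form on a finite-dimensional space of functions
on `H` is a linear combination of evaluations (the evaluations span the dual space: the intersection of their kernels is
`0`; `exists_points` of `ZO/Q2a.lean` is a form of this).

`finrank_onW_le`: induction on `dim W`. `W = 0`: `f (g * 1) = 0` for all `g`. Otherwise let `ψ` be as in
`exists_hyperplane`, `W₁ = {w ∈ W | ψ w = 0}` of dimension `dim W - 1`, again stable under left translations. The map
`f ↦ f_ψ`, `f_ψ g = ∑ j, c j * f (g * y j)`, that is `ψ (x ↦ f (g x))`, maps `onW Z H W` to `inv Z H` (`f_ψ ∈ Z` by `hZ`,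
`f_ψ (g h) = ψ (x ↦ f (g h x)) = f_ψ g` by the invariance of `ψ`), and its kernel is `onW Z H W₁`.
-/

namespace Pool.Agent.Lib.MP_666dc0_nt.PL

variable {k : Type} [Field k] {ℓ : ℕ} [Fact ℓ.Prime] [CharP k ℓ]

/-- Left translation on a space of functions on `H` which is stable under left translations. -/
private def lt {H : Type} [Group H] (W : Submodule k (H → k))
    (hW : ∀ w ∈ W, ∀ h : H, (fun x => w (h * x)) ∈ W) (h : H) : W →ₗ[k] W where
  toFun w := ⟨fun x => w.1 (h * x), hW w.1 w.2 h⟩
  map_add' _ _ := rfl
  map_smul' _ _ := rfl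

theorem exists_hyperplane {H : Type} [Group H] (N : Subgroup H) [N.Normal] (hN : ∃ e : ℕ, N.index = ℓ ^ e)
    (W : Submodule k (H → k)) [FiniteDimensional k W] (hW0 : W ≠ ⊥)
    (hW : ∀ w ∈ W, ∀ h : H, (fun x => w (h * x)) ∈ W) (hWN : ∀ w ∈ W, ∀ x, ∀ n ∈ N, w (x * n) = w x) :
    ∃ (r : ℕ) (c : Fin r → k) (y : Fin r → H), (∃ w ∈ W, ∑ j, c j * w (y j) ≠ 0) ∧
      ∀ w ∈ W, ∀ h : H, ∑ j, c j * w (h * y j) = ∑ j, c j * w (y j) := by
  classical
  obtain ⟨e, he⟩ := hN
  have hl : Fact ℓ.Prime := inferInstance
  have hidx : N.index ≠ 0 := by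
    rw [he]; exact pow_ne_zero _ hl.out.ne_zero
  have : N.FiniteIndex := ⟨hidx⟩
  have : Finite (H ⧸ N) := inferInstance
  have hP : IsPGroup ℓ (H ⧸ N) := IsPGroup.of_card (n := e) (by rw [← he]; rfl)
  -- the representation of `H` on the dual space
  let ρ0 : H →* Module.End k (Module.Dual k W) :=
    { toFun := fun h => (lt W hW h).dualMap
      map_one' := by
        ext ψ w
        show ψ (lt W hW 1 w) = ψ w
        congr 1
        apply Subtype.ext
        funext x
        show w.1 (1 * x) = w.1 x
        rw [one_mul]
      map_mul' := by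
        intro a b
        ext ψ w
        show ψ (lt W hW (a * b) w) = ψ (lt W hW b (lt W hW a w))
        congr 1
        apply Subtype.ext
        funext x
        show w.1 (a * b * x) = w.1 (a * (b * x))
        rw [mul_assoc] }
  have hρN : ∀ n ∈ N, ρ0 n = 1 := by
    intro n hn
    ext ψ w
    show ψ (lt W hW n w) = ψ w
    congr 1
    apply Subtype.ext
    funext x
    show w.1 (n * x) = w.1 x
    have h1 : n * x = x * (x⁻¹ * n * x) := by group
    have h2 : x⁻¹ * n * x ∈ N := by
      have := (inferInstance : N.Normal).conj_mem n hn x⁻¹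
      rwa [inv_inv] at this
    rw [h1, hWN w.1 w.2 x _ h2]
  let ρ : Representation k (H ⧸ N) (Module.Dual k W) :=
    QuotientGroup.lift N ρ0 (fun n hn => hρN n hn)
  have hpos : 0 < Module.finrank k (Module.Dual k W) := by
    rw [Subspace.dual_finrank_eq]
    rw [Module.finrank_pos_iff]
    exact Submodule.nontrivial_iff_ne_bot.2 hW0
  have h1 := ZO.finrank_le_card_mul_invariants k (H ⧸ N) hP (Module.Dual k W) ρ
  have h2 : 0 < Module.finrank k ρ.invariants := by
    by_contra h0
    have h3 : Module.finrank k ρ.invariants = 0 := by omega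
    rw [h3, Nat.mul_zero] at h1
    omega
  have h2' : ρ.invariants ≠ ⊥ := by
    intro h3
    rw [h3, finrank_bot] at h2
    exact lt_irrefl _ h2
  obtain ⟨ψ, hψ0⟩ : ∃ ψ : ρ.invariants, ψ ≠ 0 := by
    obtain ⟨ψ, hψ, hψ0⟩ := Submodule.exists_mem_ne_zero_of_ne_bot h2'
    exact ⟨⟨ψ, hψ⟩, fun h => hψ0 (congrArg Subtype.val h)⟩
  have hψ1 : (ψ : Module.Dual k W) ≠ 0 := fun h => hψ0 (Subtype.ext h)
  have hψ : ∀ (h : H) (w : W), (ψ : Module.Dual k W) (lt W hW h w) = (ψ : Module.Dual k W) w := by
    intro h w
    have h4 : ρ (QuotientGroup.mk h) (ψ : Module.Dual k W) = (ψ : Module.Dual k W) :=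
      (Representation.mem_invariants ρ _).1 ψ.2 _
    have h5 : ρ (QuotientGroup.mk h) = ρ0 h := rfl
    rw [h5] at h4
    exact LinearMap.congr_fun h4 w
  -- `ψ` is a combination of evaluations
  set r := Module.finrank k W with hr
  let B : Module.Basis (Fin r) k W := Module.finBasis k W
  have hli : LinearIndependent k (fun j => (B j : H → k)) :=
    B.linearIndependent.map' W.subtype (Submodule.ker_subtype W)
  obtain ⟨y, A, hA⟩ := ZO.exists_points (fun j => (B j : H → k)) hli
  have key : ∀ w : W, ∑ l, (∑ i, (ψ : Module.Dual k W) (B i) * A i l) * w.1 (y l)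
      = (ψ : Module.Dual k W) w := by
    have hlin : ∀ j, ∑ l, (∑ i, (ψ : Module.Dual k W) (B i) * A i l) * (B j).1 (y l)
        = (ψ : Module.Dual k W) (B j) := by
      intro j
      have h6 : ∑ l, (∑ i, (ψ : Module.Dual k W) (B i) * A i l) * (B j).1 (y l)
          = ∑ i, (ψ : Module.Dual k W) (B i) * ∑ l, A i l * (B j).1 (y l) := by
        simp only [Finset.sum_mul, Finset.mul_sum]
        rw [Finset.sum_comm]
        exact Finset.sum_congr rfl fun i _ => Finset.sum_congr rfl fun l _ => by ring
      rw [h6]
      simp only [hA]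
      simp
    let φ : W →ₗ[k] k :=
      { toFun := fun w => ∑ l, (∑ i, (ψ : Module.Dual k W) (B i) * A i l) * w.1 (y l)
        map_add' := by
          intro a b
          rw [← Finset.sum_add_distrib]
          exact Finset.sum_congr rfl fun l _ => by
            show _ * (a.1 (y l) + b.1 (y l)) = _
            ring
        map_smul' := by
          intro a b
          rw [RingHom.id_apply, smul_eq_mul, Finset.mul_sum]
          exact Finset.sum_congr rfl fun l _ => by
            show _ * (a * b.1 (y l)) = _
            ring }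
    have hφ : φ = (ψ : Module.Dual k W) := B.ext hlin
    intro w
    exact LinearMap.congr_fun hφ w
  refine ⟨r, fun l => ∑ i, (ψ : Module.Dual k W) (B i) * A i l, y, ?_, ?_⟩
  · by_contra hcon
    push Not at hcon
    apply hψ1
    ext w
    rw [← key w]
    exact hcon w.1 w.2
  · intro w hw h
    have h7 := key (lt W hW h ⟨w, hw⟩)
    have h8 := key ⟨w, hw⟩
    rw [hψ, ← h8] at h7
    exact h7

theorem finrank_onW_le {𝔾 : Type} [Group 𝔾] (Z : Submodule k (𝔾 → k)) (H : Subgroup 𝔾)
    (hZ : ∀ f ∈ Z, ∀ h ∈ H, (fun g => f (g * h)) ∈ Z) [FiniteDimensional k (inv Z H)]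
    (N : Subgroup H) [N.Normal] (hN : ∃ e : ℕ, N.index = ℓ ^ e)
    (W : Submodule k (H → k)) [FiniteDimensional k W]
    (hW : ∀ w ∈ W, ∀ h : H, (fun x => w (h * x)) ∈ W) (hWN : ∀ w ∈ W, ∀ x, ∀ n ∈ N, w (x * n) = w x) :
    FiniteDimensional k (onW Z H W) ∧
      Module.finrank k (onW Z H W) ≤ Module.finrank k (inv Z H) * Module.finrank k W := by
  classical
  have main : ∀ (n : ℕ) (W : Submodule k (H → k)) (_ : FiniteDimensional k W), Module.finrank k W ≤ n →
      (∀ w ∈ W, ∀ h : H, (fun x => w (h * x)) ∈ W) → (∀ w ∈ W, ∀ x, ∀ n ∈ N, w (x * n) = w x) →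
      FiniteDimensional k (onW Z H W) ∧
        Module.finrank k (onW Z H W) ≤ Module.finrank k (inv Z H) * Module.finrank k W := by
    intro n
    induction n with
    | zero =>
      intro W _ hn hW hWN
      have hW0 : W = ⊥ := Submodule.finrank_eq_zero.1 (Nat.le_zero.1 hn)
      have h0 : onW Z H W = ⊥ := by
        rw [eq_bot_iff]
        intro f hf
        rw [Submodule.mem_bot]
        funext g
        have h1 := hf.2 g
        rw [hW0, Submodule.mem_bot] at h1
        have h2 := congrFun h1 (1 : H)
        simpa using h2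
      rw [h0]
      exact ⟨inferInstance, by rw [finrank_bot]; exact Nat.zero_le _⟩
    | succ n ih =>
      intro W hfin hn hW hWN
      by_cases hW0 : W = ⊥
      · have h0 : onW Z H W = ⊥ := by
          rw [eq_bot_iff]
          intro f hf
          rw [Submodule.mem_bot]
          funext g
          have h1 := hf.2 g
          rw [hW0, Submodule.mem_bot] at h1
          have h2 := congrFun h1 (1 : H)
          simpa using h2
        rw [h0]
        exact ⟨inferInstance, by rw [finrank_bot]; exact Nat.zero_le _⟩
      obtain ⟨r, c, y, ⟨w0, hw0, hne⟩, hinv⟩ := exists_hyperplane N hN W hW0 hW hWN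
      let ψ : (H → k) →ₗ[k] k :=
        { toFun := fun w => ∑ j, c j * w (y j)
          map_add' := by
            intro a b
            rw [← Finset.sum_add_distrib]
            exact Finset.sum_congr rfl fun l _ => by rw [Pi.add_apply]; ring
          map_smul' := by
            intro a b
            rw [RingHom.id_apply, smul_eq_mul, Finset.mul_sum]
            exact Finset.sum_congr rfl fun l _ => by rw [Pi.smul_apply, smul_eq_mul]; ring }
      let W1 : Submodule k (H → k) := W ⊓ LinearMap.ker ψ
      have hlt : W1 < W := by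
        refine lt_of_le_of_ne inf_le_left ?_
        intro h
        have h1 : w0 ∈ W1 := by rw [h]; exact hw0
        exact hne h1.2
      have : FiniteDimensional k W1 := Submodule.finiteDimensional_of_le inf_le_left
      have hfr : Module.finrank k W1 < Module.finrank k W := Submodule.finrank_lt_finrank_of_lt hlt
      obtain ⟨ihf, ihr⟩ := ih W1 inferInstance (by omega)
        (by
          intro w hw h
          refine ⟨hW w hw.1 h, ?_⟩
          show ∑ j, c j * w (h * y j) = 0
          rw [hinv w hw.1 h]
          exact hw.2)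
        (fun w hw => hWN w hw.1)
      let Φ : (𝔾 → k) →ₗ[k] (𝔾 → k) :=
        { toFun := fun f g => ∑ j, c j * f (g * y j)
          map_add' := by
            intro a b
            funext g
            show ∑ j, c j * (a (g * y j) + b (g * y j)) = ∑ j, c j * a (g * y j) + ∑ j, c j * b (g * y j)
            rw [← Finset.sum_add_distrib]
            exact Finset.sum_congr rfl fun l _ => by ring
          map_smul' := by
            intro a b
            funext g
            show ∑ j, c j * (a * b (g * y j)) = a * ∑ j, c j * b (g * y j)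
            rw [Finset.mul_sum]
            exact Finset.sum_congr rfl fun l _ => by ring }
      have hmap : (onW Z H W).map Φ ≤ inv Z H := by
        rintro _ ⟨f, hf, rfl⟩
        refine ⟨?_, ?_⟩
        · have h1 : Φ f = ∑ j, c j • (fun g => f (g * y j)) := by
            funext g
            rw [Finset.sum_apply]
            rfl
          rw [h1]
          exact Submodule.sum_mem _ fun j _ => Z.smul_mem _ (hZ f hf.1 _ (y j).2)
        · intro g h hh
          show ∑ j, c j * f (g * h * y j) = ∑ j, c j * f (g * y j)
          have h2 := hinv _ (hf.2 g) ⟨h, hh⟩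
          simpa [mul_assoc] using h2
      have hker : onW Z H W ⊓ LinearMap.ker Φ ≤ onW Z H W1 := by
        rintro f ⟨hf, hfk⟩
        refine ⟨hf.1, fun g => ⟨hf.2 g, ?_⟩⟩
        exact congrFun hfk g
      have hmapf : FiniteDimensional k ((onW Z H W).map Φ) := Submodule.finiteDimensional_of_le hmap
      have hkerf : FiniteDimensional k (onW Z H W ⊓ LinearMap.ker Φ : Submodule k (𝔾 → k)) := by
        have := ihf
        exact Submodule.finiteDimensional_of_le hker
      have hF : FiniteDimensional k (onW Z H W) := by
        rw [← Submodule.fg_iff_finiteDimensional]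
        exact Submodule.fg_of_fg_map_of_fg_inf_ker Φ
          ((Submodule.fg_iff_finiteDimensional _).2 hmapf) ((Submodule.fg_iff_finiteDimensional _).2 hkerf)
      refine ⟨hF, ?_⟩
      have h3 := LinearMap.finrank_range_add_finrank_ker (Φ.domRestrict (onW Z H W))
      have h4 : Module.finrank k (LinearMap.range (Φ.domRestrict (onW Z H W))) ≤ Module.finrank k (inv Z H) := by
        rw [LinearMap.range_domRestrict]
        exact Submodule.finrank_mono hmap
      have h5 : Module.finrank k (LinearMap.ker (Φ.domRestrict (onW Z H W))) ≤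
          Module.finrank k (onW Z H W1) := by
        have := ihf
        refine LinearMap.finrank_le_finrank_of_injective
          (f := LinearMap.codRestrict (onW Z H W1)
            ((onW Z H W).subtype ∘ₗ (LinearMap.ker (Φ.domRestrict (onW Z H W))).subtype)
            (fun x => hker ⟨x.1.2, ?_⟩)) ?_
        · have h6 : Φ.domRestrict (onW Z H W) x.1 = 0 := x.2
          exact h6
        · intro a b hab
          have h7 := congrArg Subtype.val hab
          exact Subtype.ext (Subtype.ext h7)
      calc Module.finrank k (onW Z H W) ≤ Module.finrank k (inv Z H) + Module.finrank k (inv Z H) * Module.finrank k W1 := by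
            rw [← h3]
            exact Nat.add_le_add h4 (h5.trans ihr)
        _ = Module.finrank k (inv Z H) * (Module.finrank k W1 + 1) := by ring
        _ ≤ Module.finrank k (inv Z H) * Module.finrank k W := Nat.mul_le_mul_left _ hfr
  exact main _ W inferInstance le_rfl hW hWN

end Pool.Agent.Lib.MP_666dc0_nt.PL
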