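import Pool.Agent.Lib.MP_666dc0_nt.PL.RDefs

/-!
TASK R1. The dimension of the space of the reductions.

`exists_basis`: copy the proof of `Q2a_aux` / `exists_orthonormal` of `ZO/Q2a.lean` (there `X = Fin t`, here `X` is any
type and `Maxi V` replaces `Finite.exists_max`; all subspaces of `V` inherit `Maxi`).
`finrank_redS`: the reductions `ρ.app ∘ q i` of the orthonormal basis are a basis of `redS ρ V`: they span (`v = ∑ c i q i`
integral has `‖c i‖ ≤ 1`: last property with `C = 1`; `app_sum`, `app_mul`); they are independent: let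
`∑ a i (app ∘ q i) = 0`, lift `a i` to `c i` (`exists_lift`), then `v = ∑ c i q i` has `‖v x‖ < 1` for all `x`
(`app_eq_zero_iff`), by `Maxi` `‖v x‖ ≤ ‖v x₀‖ =: C < 1`, so `‖c i‖ ≤ C < 1` and `a i = 0`. (`X` empty: `V = 0`; `Maxi V`
gives a point `x₀`.)
-/

namespace Pool.Agent.Lib.MP_666dc0_nt.PL

open ZO

private theorem R1_aux {K X : Type} [NormedField K] [IsUltrametricDist K] :
    ∀ (w : ℕ) (W : Submodule K (X → K)), FiniteDimensional K W → (∀ v ∈ W, ∃ x₀, ∀ x, ‖v x‖ ≤ ‖v x₀‖) →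
    Module.finrank K W = w →
    ∃ q : Fin w → X → K, Submodule.span K (Set.range q) = W ∧
      (∀ i b, ‖q i b‖ ≤ 1) ∧
      ∀ (c : Fin w → K) (C : ℝ), 0 ≤ C →
        (∀ b, ‖∑ i, c i * q i b‖ ≤ C) → ∀ i, ‖c i‖ ≤ C := by
  intro w
  induction w with
  | zero =>
    intro W hWf _ hW
    refine ⟨Fin.elim0, ?_, fun i => i.elim0, fun c C _ _ i => i.elim0⟩
    rw [Submodule.finrank_eq_zero] at hW
    rw [hW]
    simp [Set.range_eq_empty]
  | succ w ih =>
    intro W hWf hmax hW
    have hne : W ≠ ⊥ := by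
      intro h
      rw [h, finrank_bot] at hW
      omega
    obtain ⟨v, hv, hv0⟩ := Submodule.exists_mem_ne_zero_of_ne_bot hne
    obtain ⟨b₀, hb₀⟩ := hmax v hv
    have hvb : v b₀ ≠ 0 := by
      intro h
      apply hv0
      funext b
      have := hb₀ b
      rw [h, norm_zero] at this
      simpa using this
    set q₀ : X → K := (v b₀)⁻¹ • v with hq₀
    have hq₀W : q₀ ∈ W := W.smul_mem _ hv
    have hq₀1 : q₀ b₀ = 1 := by simp [hq₀, hvb]
    have hq₀n : ∀ b, ‖q₀ b‖ ≤ 1 := by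
      intro b
      simp only [hq₀, Pi.smul_apply, smul_eq_mul, norm_mul, norm_inv]
      rw [inv_mul_le_iff₀ (norm_pos_iff.2 hvb), mul_one]
      exact hb₀ b
    let L : W →ₗ[K] K := (LinearMap.proj b₀).comp W.subtype
    have hLs : Function.Surjective L := by
      intro c
      refine ⟨c • ⟨q₀, hq₀W⟩, ?_⟩
      simp [L, hq₀1]
    have hrank := LinearMap.finrank_range_add_finrank_ker L
    rw [LinearMap.range_eq_top.2 hLs, finrank_top, Module.finrank_self, hW] at hrank
    set W' : Submodule K (X → K) := (LinearMap.ker L).map W.subtype with hW'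
    have hW'r : Module.finrank K W' = w := by
      rw [hW', Submodule.finrank_map_subtype_eq]
      omega
    have hmem : ∀ u, u ∈ W' ↔ u ∈ W ∧ u b₀ = 0 := by
      intro u
      rw [hW']
      constructor
      · rintro ⟨⟨y, hy⟩, hy2, rfl⟩
        exact ⟨hy, by simpa [L] using hy2⟩
      · rintro ⟨h1, h2⟩
        exact ⟨⟨u, h1⟩, by simpa [L] using h2, rfl⟩
    have hW'le : W' ≤ W := fun u hu => ((hmem u).1 hu).1
    obtain ⟨q', hs, hn, hc⟩ := ih W' (Submodule.finiteDimensional_of_le hW'le)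
      (fun u hu => hmax u (hW'le hu)) hW'r
    refine ⟨Fin.cons q₀ q', ?_, ?_, ?_⟩
    · rw [Fin.range_cons, Submodule.span_insert, hs]
      apply le_antisymm
      · rw [sup_le_iff]
        refine ⟨?_, hW'le⟩
        rw [Submodule.span_singleton_le_iff_mem]
        exact hq₀W
      · intro u hu
        rw [Submodule.mem_sup]
        refine ⟨u b₀ • q₀, Submodule.smul_mem _ _ (Submodule.mem_span_singleton_self _),
          u - u b₀ • q₀, ?_, by abel⟩
        rw [hmem]
        refine ⟨W.sub_mem hu (W.smul_mem _ hq₀W), ?_⟩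
        simp [hq₀1]
    · intro i b
      refine Fin.cases ?_ ?_ i
      · simpa using hq₀n b
      · intro j
        simpa using hn j b
    · intro c C hC h
      have h0 : ∀ j, q' j b₀ = 0 := by
        intro j
        have : q' j ∈ W' := by
          rw [← hs]
          exact Submodule.subset_span ⟨j, rfl⟩
        exact ((hmem _).1 this).2
      have e : ∀ b, ∑ i, c i * (Fin.cons q₀ q' : Fin (w + 1) → X → K) i b =
          c 0 * q₀ b + ∑ j, c (Fin.succ j) * q' j b := by
        intro b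
        rw [Fin.sum_univ_succ]
        simp
      have hc0 : ‖c 0‖ ≤ C := by
        have h1 := h b₀
        rw [e b₀] at h1
        simpa [h0, hq₀1] using h1
      have h2 : ∀ b, ‖∑ j, c (Fin.succ j) * q' j b‖ ≤ C := by
        intro b
        have h3 : ∑ j, c (Fin.succ j) * q' j b =
            (∑ i, c i * (Fin.cons q₀ q' : Fin (w + 1) → X → K) i b) - c 0 * q₀ b := by
          rw [e b]; ring
        rw [h3]
        rw [sub_eq_add_neg]
        refine (IsUltrametricDist.norm_add_le_max _ _).trans (max_le (h b) ?_)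
        rw [norm_neg, norm_mul]
        calc ‖c 0‖ * ‖q₀ b‖ ≤ C * 1 := mul_le_mul hc0 (hq₀n b) (norm_nonneg _) hC
          _ = C := mul_one C
      intro i
      refine Fin.cases hc0 ?_ i
      intro j
      exact hc (fun j => c (Fin.succ j)) C hC h2 j

variable {ℓ : ℕ} [Fact ℓ.Prime] {k : Type} [Field k] (ρ : Red ℓ k) {X : Type}

theorem exists_basis (V : Submodule (PadicAlgCl ℓ) (X → PadicAlgCl ℓ)) [FiniteDimensional (PadicAlgCl ℓ) V]
    (hV : Maxi V) :
    ∃ q : Fin (Module.finrank (PadicAlgCl ℓ) V) → X → PadicAlgCl ℓ,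
      (∀ i, q i ∈ V) ∧ (∀ i x, ‖q i x‖ ≤ 1) ∧
      (∀ v ∈ V, ∃ c : Fin (Module.finrank (PadicAlgCl ℓ) V) → PadicAlgCl ℓ, v = ∑ i, c i • q i) ∧
      ∀ (c : Fin (Module.finrank (PadicAlgCl ℓ) V) → PadicAlgCl ℓ) (C : ℝ), 0 ≤ C →
        (∀ x, ‖∑ i, c i * q i x‖ ≤ C) → ∀ i, ‖c i‖ ≤ C := by
  obtain ⟨q, h1, h2, h3⟩ := R1_aux (K := PadicAlgCl ℓ) _ V inferInstance hV rfl
  refine ⟨q, fun i => ?_, h2, fun v hv => ?_, h3⟩
  · have h4 : q i ∈ Submodule.span (PadicAlgCl ℓ) (Set.range q) := Submodule.subset_span ⟨i, rfl⟩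
    rwa [h1] at h4
  · rw [← h1] at hv
    obtain ⟨c, hc⟩ := (Submodule.mem_span_range_iff_exists_fun (PadicAlgCl ℓ)).1 hv
    exact ⟨c, hc.symm⟩

/-- The reductions of the elements of the basis span the space of the reductions. -/
private theorem R1_span {V : Submodule (PadicAlgCl ℓ) (X → PadicAlgCl ℓ)} {w : ℕ}
    {q : Fin w → X → PadicAlgCl ℓ} (h2 : ∀ i x, ‖q i x‖ ≤ 1)
    (h3 : ∀ v ∈ V, ∃ c : Fin w → PadicAlgCl ℓ, v = ∑ i, c i • q i)
    (h4 : ∀ (c : Fin w → PadicAlgCl ℓ) (C : ℝ), 0 ≤ C → (∀ x, ‖∑ i, c i * q i x‖ ≤ C) → ∀ i, ‖c i‖ ≤ C)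
    {f : X → k} (hf : f ∈ redS ρ V) : ∃ a : Fin w → k, ∀ x, f x = ∑ i, a i * ρ.app (q i x) := by
  obtain ⟨v, hv, hv1, hfv⟩ := hf
  obtain ⟨c, hc⟩ := h3 v hv
  have hcx : ∀ x, v x = ∑ i, c i * q i x := fun x => by
    rw [hc, Finset.sum_apply]
    rfl
  have hc1 : ∀ i, ‖c i‖ ≤ 1 := h4 c 1 zero_le_one fun x => by
    rw [← hcx]
    exact hv1 x
  refine ⟨fun i => ρ.app (c i), fun x => ?_⟩
  rw [hfv, hcx, ρ.app_sum _ fun i _ => by
    rw [norm_mul]
    exact mul_le_one₀ (hc1 i) (norm_nonneg _) (h2 i x)]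
  exact Finset.sum_congr rfl fun i _ => ρ.app_mul (hc1 i) (h2 i x)

theorem finrank_redS (V : Submodule (PadicAlgCl ℓ) (X → PadicAlgCl ℓ)) [FiniteDimensional (PadicAlgCl ℓ) V]
    (hV : Maxi V) : FiniteDimensional k (redS ρ V) ∧
      Module.finrank k (redS ρ V) = Module.finrank (PadicAlgCl ℓ) V := by
  obtain ⟨q, h1, h2, h3, h4⟩ := exists_basis V hV
  let r : Fin (Module.finrank (PadicAlgCl ℓ) V) → X → k := fun i x => ρ.app (q i x)
  have hspan : Submodule.span k (Set.range r) = redS ρ V := by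
    refine le_antisymm (Submodule.span_le.2 ?_) fun f hf => ?_
    · rintro _ ⟨i, rfl⟩
      exact ⟨q i, h1 i, h2 i, fun _ => rfl⟩
    · obtain ⟨a, ha⟩ := R1_span ρ h2 h3 h4 hf
      refine (Submodule.mem_span_range_iff_exists_fun k).2 ⟨a, ?_⟩
      funext x
      rw [ha x, Finset.sum_apply]
      rfl
  have hli : LinearIndependent k r := by
    rw [Fintype.linearIndependent_iff]
    intro a ha i
    choose c hc1 hca using fun i => ρ.exists_lift (a i)
    have hvV : ∑ i, c i • q i ∈ V := Submodule.sum_mem _ fun i _ => V.smul_mem _ (h1 i)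
    have hvx : ∀ x, (∑ i, c i • q i : X → PadicAlgCl ℓ) x = ∑ i, c i * q i x := fun x => by
      rw [Finset.sum_apply]
      rfl
    have hn : ∀ i x, ‖c i * q i x‖ ≤ 1 := fun i x => by
      rw [norm_mul]
      exact mul_le_one₀ (hc1 i) (norm_nonneg _) (h2 i x)
    have hn1 : ∀ x, ‖∑ i, c i * q i x‖ ≤ 1 := fun x =>
      IsUltrametricDist.norm_sum_le_of_forall_le_of_nonneg zero_le_one fun i _ => hn i x
    have hlt : ∀ x, ‖∑ i, c i * q i x‖ < 1 := fun x => by
      rw [← ρ.app_eq_zero_iff (hn1 x), ρ.app_sum _ fun i _ => hn i x]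
      have h5 := congrFun ha x
      rw [Finset.sum_apply] at h5
      refine Eq.trans (Finset.sum_congr rfl fun i _ => ?_) h5
      rw [ρ.app_mul (hc1 i) (h2 i x), hca]
      rfl
    obtain ⟨x₀, hx₀⟩ := hV _ hvV
    have h6 := h4 c ‖∑ i, c i * q i x₀‖ (norm_nonneg _) (fun x => by
      have h7 := hx₀ x
      rwa [hvx, hvx] at h7) i
    rw [← hca i, ρ.app_eq_zero_iff (hc1 i)]
    exact h6.trans_lt (hlt x₀)
  rw [← hspan]
  refine ⟨FiniteDimensional.span_of_finite k (Set.finite_range r), ?_⟩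
  rw [finrank_span_eq_card hli, Fintype.card_fin]

/-- A property of the reductions of finitely many functions: if every function in `V` is close to being invariant, for
every `ε`, then there is a common `t` for all reductions. Here `σ` is any family of maps `X → X` (for example right
translations by elements of `N t`). -/
theorem exists_common {I : Type} (σ : ℕ → I → Prop) (m : I → X → X) (hσ : ∀ t i, σ (t + 1) i → σ t i)
    (V : Submodule (PadicAlgCl ℓ) (X → PadicAlgCl ℓ)) [FiniteDimensional (PadicAlgCl ℓ) V] (hV : Maxi V)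
    (h : ∀ v ∈ V, ∃ t, ∀ i, σ t i → ∀ x, ‖v (m i x) - v x‖ < 1) :
    ∃ t, ∀ i, σ t i → ∀ f ∈ redS ρ V, ∀ x, f (m i x) = f x := by
  obtain ⟨q, h1, h2, h3, h4⟩ := exists_basis V hV
  choose t ht using fun j => h (q j) (h1 j)
  have hmono : ∀ {s s' : ℕ}, s ≤ s' → ∀ i, σ s' i → σ s i := by
    intro s s' hss
    induction hss with
    | refl => exact fun i hi => hi
    | step _ ih => exact fun i hi => ih i (hσ _ i hi)
  refine ⟨Finset.univ.sup t, fun i hi f hf x => ?_⟩
  obtain ⟨a, ha⟩ := R1_span ρ h2 h3 h4 hf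
  rw [ha, ha]
  refine Finset.sum_congr rfl fun j _ => ?_
  rw [ρ.app_eq (h2 j (m i x)) (ht j i (hmono (Finset.le_sup (Finset.mem_univ j)) i hi) x)]

end Pool.Agent.Lib.MP_666dc0_nt.PL
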