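import Pool.Agent.Lib.MP_666dc0_nt.PL.SD

/-!
# Steinberg forms
-/

open NumberField IsDedekindDomain
open scoped NumberField

namespace Pool.Agent.Lib.MP_666dc0_nt.PL

open WL ZO FM

variable {F : Type} [Field F] [NumberField F] {n : ℕ}

/-- The left cosets of `I` in the double coset `I s I`. -/
def doubleCoset {D : Datum F n} (I : Subgroup D.Ad) (s : D.Ad) : Set (D.Ad ⧸ I) :=
  {c | ∃ a ∈ I, c = (a * s : D.Ad)}

/-- The operator `T_s` of the Hecke algebra of `I`: `(T_s f)(g) = ∑ f(g x)`, the sum over the left cosets `x I` in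
`I s I`. -/
noncomputable def opT {D : Datum F n} (I : Subgroup D.Ad) (s : D.Ad) (f : D.Ad → D.Cpx → ℂ) : D.Ad → D.Cpx → ℂ :=
  fun g => ∑ᶠ c ∈ doubleCoset I s, f (g * c.out)

/-- The sum of the numbers `1 / (1 + q_j)`, where `q_j` is the number of the left cosets of `I` in `I s_j I`. -/
noncomputable def sumRefl {D : Datum F n} (I : Subgroup D.Ad) {k : ℕ} (s : Fin k → D.Ad) : ℝ :=
  ∑ j, 1 / (1 + (doubleCoset I (s j)).ncard : ℝ)

/-- `I` is a level at `ℓ` and `s_1, …, s_k` are reflections with respect to `I`, as for an Iwahori subgroup and the simple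
affine reflections: `I ∪ I s_j I` is a group and a level at `ℓ`, and different from `I`; moreover `∑ 1 / (1 + q_j) < 1`, where
`1 + q_j` is the index of `I` in `I ∪ I s_j I`. -/
structure IsIwahori (ℓ : ℕ) {D : Datum F n} (U I : Subgroup D.Ad) {k : ℕ} (s : Fin k → D.Ad) : Prop where
  level : IsLevel ℓ U I
  notMem : ∀ j, s j ∉ I
  refl : ∀ j, ∃ P : Subgroup D.Ad, IsLevel ℓ U P ∧ ∀ x, x ∈ P ↔ x ∈ I ∨ ∃ a ∈ I, ∃ b ∈ I, x = a * s j * b
  sum : sumRefl I s < 1

/-- `f` is a Steinberg form with weights in `Q`: a form of level `U I` with `T_(s_j) f = - f` for all `j`. -/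
structure IsSteinberg (D : Datum F n) (Q : Submodule ℂ (D.Cpx → ℂ)) (U I : Subgroup D.Ad) {k : ℕ}
    (s : Fin k → D.Ad) (f : D.Ad → D.Cpx → ℂ) : Prop where
  form : IsForm D Q (U ⊔ I) f
  sign : ∀ j, opT I (s j) f = -f

/-- The dimension of the span of the Steinberg eigenforms with weights in `Q` whose system has the property `p`. -/
noncomputable def dimSt {D : Datum F n} (U : Subgroup D.Ad) (S : Finset (HeightOneSpectrum (𝓞 F)))
    (Q : Submodule ℂ (D.Cpx → ℂ)) (I : Subgroup D.Ad) {k : ℕ} (s : Fin k → D.Ad)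
    (p : (∀ v, Hecke U v → ℂ) → Prop) : ℕ :=
  Set.finrank ℂ {f | IsSteinberg D Q U I s f ∧ ∃ lam, IsEigen S f lam ∧ p lam}

/-- `Q` is a Følner sequence of weights, `I` is a level at `ℓ` with reflections `s_j`, and the `T i = (J_i, ρ_i)` are types at `ℓ`
with `I ⊆ J_i`, with real coefficients `c i` such that `∑ c_i (dim ρ_i) / [J_i : I]` is positive. -/
structure IsTestSt (ℓ : ℕ) {D : Datum F n} (U : Subgroup D.Ad) (Q : ℕ → Submodule ℂ (D.Cpx → ℂ)) (I : Subgroup D.Ad)
    {k : ℕ} (s : Fin k → D.Ad) {m : ℕ} (T : Fin m → RepType D) (c : Fin m → ℝ) : Prop where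
  folner : IsFolner D Q
  iwahori : IsIwahori ℓ U I s
  types : ∀ i, IsRepTypeAt ℓ U (T i)
  le : ∀ i, I ≤ (T i).J
  pos : 0 < ∑ i, c i * (T i).r / I.relIndex (T i).J

/-- The systems with the property `w` are abundant: for all large `d` some of them occur in Steinberg forms with weights in
`Q d`, and some have positive signed multiplicity `∑ c_i m_i` in the forms of the types `T i` with weights in `Q d`; their share among the
Steinberg forms is at least `(1 - ∑ 1 / (1 + q_j)) / r - o(1)`. -/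
structure IsAbundantSt {D : Datum F n} {U : Subgroup D.Ad} (S : Finset (HeightOneSpectrum (𝓞 F))) (r : ℕ)
    (w : (∀ v, Hecke U v → ℂ) → Prop) (Q : ℕ → Submodule ℂ (D.Cpx → ℂ)) (I : Subgroup D.Ad)
    {k : ℕ} (s : Fin k → D.Ad) {m : ℕ} (T : Fin m → RepType D) (c : Fin m → ℝ) : Prop where
  st : ∀ᶠ d in Filter.atTop, ∃ lam f, w lam ∧ IsSteinberg D (Q d) U I s f ∧ f ≠ 0 ∧ IsEigen S f lam
  share : ∀ ε : ℝ, 0 < ε → ∀ᶠ d in Filter.atTop,
    ((1 - sumRefl I s) / r - ε) * dimSt U S (Q d) I s (fun _ => True) ≤ dimSt U S (Q d) I s w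
  signed : ∀ᶠ d in Filter.atTop, ∃ lam, w lam ∧ 0 < ∑ i, c i * dimR S (Q d) (T i) (· = lam)

end Pool.Agent.Lib.MP_666dc0_nt.PL
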