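import Pool.Agent.Lib.MP_666dc0_nt.PL.ST
import Pool.Agent.Lib.MP_666dc0_nt.Mg.G096

/-!
# Steinberg forms are new forms
-/

open NumberField IsDedekindDomain
open scoped NumberField

namespace Pool.Agent.Lib.MP_666dc0_nt.PL

open WL ZO FM

section group

variable {G : Type*} [Group G]

/-- The map from the cosets of `I` in `P` to the cosets of `I` in `G`. -/
def cosetIncl (I P : Subgroup G) : P ⧸ I.subgroupOf P → G ⧸ I :=
  Quotient.map' (fun x => (x : G)) (by
    intro a b h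
    rw [QuotientGroup.leftRel_apply] at h ⊢
    exact h)

theorem cosetIncl_mk (I P : Subgroup G) (x : P) : cosetIncl I P (x : P ⧸ I.subgroupOf P) = ((x : G) : G ⧸ I) := rfl

theorem cosetIncl_injective (I P : Subgroup G) : Function.Injective (cosetIncl I P) := by
  intro a b
  induction a using QuotientGroup.induction_on with
  | H a =>
    induction b using QuotientGroup.induction_on with
    | H b =>
      intro h
      rw [cosetIncl_mk, cosetIncl_mk, QuotientGroup.eq] at h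
      rw [QuotientGroup.eq]
      exact h

end group

variable {F : Type} [Field F] [NumberField F] {n : ℕ} {D : Datum F n}

theorem range_cosetIncl {I P : Subgroup D.Ad} {s : D.Ad}
    (h : ∀ x, x ∈ P ↔ x ∈ I ∨ ∃ a ∈ I, ∃ b ∈ I, x = a * s * b) :
    Set.range (cosetIncl I P) = insert ((1 : D.Ad) : D.Ad ⧸ I) (doubleCoset I s) := by
  ext c
  constructor
  · rintro ⟨x, rfl⟩
    induction x using QuotientGroup.induction_on with
    | H x =>
      rw [cosetIncl_mk]
      rcases (h x).1 x.2 with hx | ⟨a, ha, b, hb, hx⟩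
      · left
        rw [QuotientGroup.eq, mul_one]
        exact I.inv_mem hx
      · right
        refine ⟨a, ha, ?_⟩
        rw [hx, QuotientGroup.eq]
        have h1 : (a * s * b)⁻¹ * (a * s) = b⁻¹ := by group
        rw [h1]
        exact I.inv_mem hb
  · rintro (rfl | ⟨a, ha, rfl⟩)
    · exact ⟨((⟨1, (h 1).2 (Or.inl I.one_mem)⟩ : P) : P ⧸ I.subgroupOf P), rfl⟩
    · exact ⟨((⟨a * s, (h _).2 (Or.inr ⟨a, ha, 1, I.one_mem, (mul_one _).symm⟩)⟩ : P) : P ⧸ I.subgroupOf P), rfl⟩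

theorem one_notMem {I : Subgroup D.Ad} {s : D.Ad} (hs : s ∉ I) : ((1 : D.Ad) : D.Ad ⧸ I) ∉ doubleCoset I s := by
  rintro ⟨a, ha, h⟩
  rw [QuotientGroup.eq, inv_one, one_mul] at h
  exact hs ((I.mul_mem_cancel_left ha).1 h)

/-- The cosets of `I` in `I ∪ I s I`. -/
theorem trace_eq {I P : Subgroup D.Ad} {s : D.Ad} (hs : s ∉ I) (hfin : Finite (P ⧸ I.subgroupOf P))
    (h : ∀ x, x ∈ P ↔ x ∈ I ∨ ∃ a ∈ I, ∃ b ∈ I, x = a * s * b) {f : D.Ad → D.Cpx → ℂ}
    (hf : ∀ g, ∀ k ∈ I, f (g * k) = f g) (g : D.Ad) :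
    ∑ᶠ x : P ⧸ I.subgroupOf P, f (g * (x.out : P)) = f g + opT I s f g := by
  classical
  have h1 : ∀ x : P ⧸ I.subgroupOf P, f (g * ((x.out : P) : D.Ad)) = f (g * (cosetIncl I P x).out) := by
    intro x
    have h2 : ((x.out : P) : P ⧸ I.subgroupOf P) = x := QuotientGroup.out_eq' x
    have h3 : cosetIncl I P x = (((x.out : P) : D.Ad) : D.Ad ⧸ I) := by
      conv_lhs => rw [← h2]
      rfl
    have h4 : (((cosetIncl I P x).out : D.Ad) : D.Ad ⧸ I) = (((x.out : P) : D.Ad) : D.Ad ⧸ I) := by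
      rw [← h3]
      exact QuotientGroup.out_eq' _
    rw [QuotientGroup.eq] at h4
    have h5 : g * ((x.out : P) : D.Ad) = g * (cosetIncl I P x).out * ((cosetIncl I P x).out⁻¹ * ((x.out : P) : D.Ad)) := by
      group
    rw [h5, hf _ _ h4]
  have hR : (Set.range (cosetIncl I P)).Finite := Set.finite_range _
  have h6 : ∑ᶠ x : P ⧸ I.subgroupOf P, f (g * ((x.out : P) : D.Ad)) =
      ∑ᶠ c ∈ Set.range (cosetIncl I P), f (g * c.out) := by
    rw [finsum_mem_range (cosetIncl_injective I P)]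
    exact finsum_congr h1
  have h7 : (doubleCoset I s).Finite := by
    refine hR.subset ?_
    rw [range_cosetIncl h]
    exact Set.subset_insert _ _
  rw [h6, range_cosetIncl h, finsum_mem_insert _ (one_notMem hs) h7]
  congr 1
  have h8 : ((((1 : D.Ad) : D.Ad ⧸ I).out : D.Ad) : D.Ad ⧸ I) = ((1 : D.Ad) : D.Ad ⧸ I) := QuotientGroup.out_eq' _
  rw [QuotientGroup.eq, mul_one] at h8
  have h9 := hf g _ (I.inv_mem h8)
  rw [inv_inv] at h9
  exact h9

theorem relIndex_eq {I P : Subgroup D.Ad} {s : D.Ad} (hs : s ∉ I) (hfin : Finite (P ⧸ I.subgroupOf P))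
    (h : ∀ x, x ∈ P ↔ x ∈ I ∨ ∃ a ∈ I, ∃ b ∈ I, x = a * s * b) :
    I.relIndex P = 1 + (doubleCoset I s).ncard := by
  have h1 : I.relIndex P = Nat.card (P ⧸ I.subgroupOf P) := rfl
  have h2 : Nat.card (P ⧸ I.subgroupOf P) = (Set.range (cosetIncl I P)).ncard := by
    rw [← Set.image_univ, Set.ncard_image_of_injective _ (cosetIncl_injective I P), Set.ncard_univ]
  have h7 : (doubleCoset I s).Finite := by
    refine (Set.finite_range (cosetIncl I P)).subset ?_
    rw [range_cosetIncl h]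
    exact Set.subset_insert _ _
  rw [h1, h2, range_cosetIncl h, Set.ncard_insert_of_notMem (one_notMem hs) h7, add_comm]

section

variable {ℓ : ℕ} [Fact ℓ.Prime] {U I : Subgroup D.Ad}

/-- The groups `I ∪ I s_j I`. -/
theorem IsIwahori.exists_P {k : ℕ} {s : Fin k → D.Ad} (hU : IsTame ℓ U) (h : IsIwahori ℓ U I s) :
    ∃ P : Fin k → Subgroup D.Ad, (∀ j, IsLevel ℓ U (P j)) ∧ (∀ j, I ≤ P j) ∧
      (∀ j, (I.relIndex (P j) : ℝ) = 1 + (doubleCoset I (s j)).ncard) ∧
      ∀ Q f, IsNewForm D Q U I P f ↔ IsSteinberg D Q U I s f := by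
  choose P hP hx using h.refl
  have hfin : ∀ j, Finite (P j ⧸ I.subgroupOf (P j)) := fun j =>
    Nat.finite_of_card_ne_zero (relIndex_ne_zero_of_level hU h.level (hP j))
  refine ⟨P, hP, fun j x hxI => (hx j x).2 (Or.inl hxI), fun j => ?_, fun Q f => ?_⟩
  · rw [relIndex_eq (h.notMem j) (hfin j) (hx j)]
    push_cast
    rfl
  · constructor
    · rintro ⟨h1, h2⟩
      refine ⟨h1, fun j => funext fun g => ?_⟩
      have h3 := h2 j g
      rw [trace_eq (h.notMem j) (hfin j) (hx j) (fun g k hk => h1.right g k ((le_sup_right : I ≤ U ⊔ I) hk))] at h3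
      exact eq_neg_of_add_eq_zero_right h3
    · rintro ⟨h1, h2⟩
      refine ⟨h1, fun j g => ?_⟩
      rw [trace_eq (h.notMem j) (hfin j) (hx j) (fun g k hk => h1.right g k ((le_sup_right : I ≤ U ⊔ I) hk)), h2 j]
      exact add_neg_cancel (f g)

end

end Pool.Agent.Lib.MP_666dc0_nt.PL
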