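import Pool.Agent.Lib.MP_666dc0_nt.PL.ST2

/-!
# PL, ST3: the main theorem for Steinberg forms
-/

open NumberField IsDedekindDomain TensorProduct
open scoped NumberField TensorProduct

namespace Pool.Agent.Lib.MP_666dc0_nt.PL

open WL ZO FM

section

variable {F : Type} [Field F] [NumberField F] {n : ℕ} {D : Datum F n} {ℓ : ℕ} [Fact ℓ.Prime]
  {S : Finset (HeightOneSpectrum (𝓞 F))} {U : Subgroup D.Ad}

theorem dimN_eq_dimSt {I : Subgroup D.Ad} {k : ℕ} {s : Fin k → D.Ad} {P : Fin k → Subgroup D.Ad}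
    (h : ∀ Q f, IsNewForm D Q U I P f ↔ IsSteinberg D Q U I s f) (Q : Submodule ℂ (D.Cpx → ℂ))
    (p : (∀ v, Hecke U v → ℂ) → Prop) : dimN U S Q I P p = dimSt U S Q I s p := by
  unfold dimN dimSt
  simp only [h]

theorem abundantSt [IsTotallyReal F] (hD : IsTotPosDef D.q)
    (hSl : ∀ v : HeightOneSpectrum (𝓞 F), (ℓ : 𝓞 F) ∈ v.asIdeal → v ∈ S) (hU : IsTame ℓ U)
    (hUS : ∀ v, v ∉ S → IsGoodAt U v) {K : ℕ → Subgroup D.Ad} {d : ℕ} (hK : IsUniform ℓ d U K) (ι : ℂ ≃+* PadicAlgCl ℓ)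
    {r : ℕ} (hr : 0 < r) {w : (∀ v, Hecke U v → ℂ) → Prop} (hw : IsAbundantSys ℓ S U r w)
    {Q : ℕ → Submodule ℂ (D.Cpx → ℂ)} {I : Subgroup D.Ad} {k : ℕ} {s : Fin k → D.Ad}
    {m : ℕ} {T : Fin m → RepType D} {c : Fin m → ℝ} (h : IsTestSt ℓ U Q I s T c) :
    IsAbundantSt S r w Q I s T c := by
  have hr1 : (0 : ℝ) < r := by exact_mod_cast hr
  obtain ⟨P, hP, hIP, hidx, hnew⟩ := h.iwahori.exists_P hU
  have hs : ∑ j, 1 / (I.relIndex (P j) : ℝ) = sumRefl I s := by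
    unfold sumRefl
    exact Finset.sum_congr rfl fun j _ => by rw [hidx j]
  have hs1 : ∑ j, 1 / (I.relIndex (P j) : ℝ) < 1 := by
    rw [hs]
    exact h.iwahori.sum
  refine ⟨?_, fun ε hε => ?_, hw.signed Q h.folner m T c I h.types h.iwahori.level h.le h.pos⟩
  · have hs0 : 0 < (1 - ∑ j, 1 / (I.relIndex (P j) : ℝ)) / r := div_pos (by linarith) hr1
    have h1 := hw.new Q h.folner k P I hP h.iwahori.level hIP hs1 _ (half_pos hs0)
    have h2 := dimN_pos hD hSl hU hUS hK ι h.folner hP h.iwahori.level hIP hs1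
    filter_upwards [h1, h2] with d hd1 hd2
    have h3 : (0 : ℝ) < dimN U S (Q d) I P (fun _ => True) := by exact_mod_cast hd2
    have h4 : (0 : ℝ) < dimN U S (Q d) I P w := by
      refine lt_of_lt_of_le (mul_pos ?_ h3) hd1
      linarith
    have h5 : dimN U S (Q d) I P w ≠ 0 := by
      intro h0
      rw [h0, Nat.cast_zero] at h4
      exact lt_irrefl _ h4
    obtain ⟨lam, f, hf, hf0, he, hl⟩ := exists_newForm h5
    exact ⟨lam, f, hl, (hnew _ _).1 hf, hf0, he⟩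
  · refine (hw.new Q h.folner k P I hP h.iwahori.level hIP hs1 ε hε).mono fun d hd => ?_
    rw [hs, dimN_eq_dimSt hnew, dimN_eq_dimSt hnew] at hd
    exact hd

theorem finite_spanSt [IsTotallyReal F] (hD : IsTotPosDef D.q) {Q : Submodule ℂ (D.Cpx → ℂ)} (hQ : IsWeight D Q)
    {I : Subgroup D.Ad} (hI : IsLevel ℓ U I) {k : ℕ} {s : Fin k → D.Ad} (p : (∀ v, Hecke U v → ℂ) → Prop) :
    FiniteDimensional ℂ (Submodule.span ℂ {f | IsSteinberg D Q U I s f ∧ ∃ lam, IsEigen S f lam ∧ p lam}) := by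
  have h1 := finite_typeForms hD (isTypeAt_trivType hI) hQ
  refine Submodule.finiteDimensional_of_le (S₂ := typeForms D Q U (trivType I)) ?_
  rw [Submodule.span_le]
  rintro f ⟨hf, -⟩
  exact isTypeForm_trivType hf.form

theorem dimSt_mono [IsTotallyReal F] (hD : IsTotPosDef D.q) {Q : Submodule ℂ (D.Cpx → ℂ)} (hQ : IsWeight D Q)
    {I : Subgroup D.Ad} (hI : IsLevel ℓ U I) {k : ℕ} {s : Fin k → D.Ad} {p q : (∀ v, Hecke U v → ℂ) → Prop}
    (hpq : ∀ lam, p lam → q lam) : dimSt U S Q I s p ≤ dimSt U S Q I s q := by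
  have h1 := finite_spanSt (S := S) hD hQ hI (s := s) q
  exact Submodule.finrank_mono (Submodule.span_mono fun f hf => ⟨hf.1, hf.2.choose, hf.2.choose_spec.1,
    hpq _ hf.2.choose_spec.2⟩)

theorem dimSt_pos [IsTotallyReal F] (hD : IsTotPosDef D.q) {Q : Submodule ℂ (D.Cpx → ℂ)} (hQ : IsWeight D Q)
    {I : Subgroup D.Ad} (hI : IsLevel ℓ U I) {k : ℕ} {s : Fin k → D.Ad} {f : D.Ad → D.Cpx → ℂ}
    (hf : IsSteinberg D Q U I s f) (hf0 : f ≠ 0) {lam : ∀ v, Hecke U v → ℂ} (he : IsEigen S f lam) :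
    0 < dimSt U S Q I s (fun _ => True) := by
  have h1 := finite_spanSt (S := S) hD hQ hI (s := s) (fun _ => True)
  have h6 : f ∈ Submodule.span ℂ {f | IsSteinberg D Q U I s f ∧ ∃ lam, IsEigen S f lam ∧ True} :=
    Submodule.subset_span ⟨hf, lam, he, trivial⟩
  have h7 : Nontrivial (Submodule.span ℂ {f | IsSteinberg D Q U I s f ∧ ∃ lam, IsEigen S f lam ∧ True}) :=
    ⟨⟨⟨f, h6⟩, 0, fun h => hf0 (congrArg Subtype.val h)⟩⟩
  exact Module.finrank_pos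

/-- The equivalence of the tests for a property `b` whose violators are abundant. -/
theorem tfae_testsSt [IsTotallyReal F] (hD : IsTotPosDef D.q) {r : ℕ} (hr : 0 < r)
    {b : (∀ v, Hecke U v → ℂ) → Prop} {Q : ℕ → Submodule ℂ (D.Cpx → ℂ)} {I : Subgroup D.Ad} {k : ℕ} {s : Fin k → D.Ad}
    {m : ℕ} {T : Fin m → RepType D} {c : Fin m → ℝ} (h : IsTestSt ℓ U Q I s T c)
    (hab : ∀ lam₀ ∈ AllSys ℓ S U, ¬b lam₀ →
      ∃ w : (∀ v, Hecke U v → ℂ) → Prop, (∀ lam, w lam → ¬b lam) ∧ IsAbundantSt S r w Q I s T c) :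
    List.TFAE [
      ∀ lam ∈ AllSys ℓ S U, b lam,
      ∃ᶠ d in Filter.atTop, ∀ lam f, IsSteinberg D (Q d) U I s f → f ≠ 0 → IsEigen S f lam → b lam,
      ∃ x : ℝ, x < (1 - sumRefl I s) / r ∧ ∃ᶠ d in Filter.atTop,
        (dimSt U S (Q d) I s (fun lam => ¬b lam) : ℝ) ≤ x * dimSt U S (Q d) I s (fun _ => True),
      ∃ᶠ d in Filter.atTop, ∀ lam, 0 < ∑ i, c i * dimR S (Q d) (T i) (· = lam) → b lam] := by
  have hr1 : (0 : ℝ) < r := by exact_mod_cast hr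
  tfae_have 1 → 2 := fun hb => (Filter.Eventually.of_forall fun d lam f hf hf0 he =>
    hb lam (mem_allSys (h.folner.weight d) (isTypeAt_trivType h.iwahori.level) (isTypeForm_trivType hf.form)
      hf0 he)).frequently
  tfae_have 1 → 4 := fun hb => (Filter.Eventually.of_forall fun d lam hpos => by
    obtain ⟨i, hi⟩ : ∃ i, dimR S (Q d) (T i) (· = lam) ≠ 0 := by
      by_contra hcon
      push Not at hcon
      rw [Finset.sum_eq_zero fun i _ => by rw [hcon i, Nat.cast_zero, mul_zero]] at hpos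
      exact lt_irrefl _ hpos
    obtain ⟨lam', f, hf, hf0, he, rfl⟩ := exists_repForm hi
    exact hb _ (mem_allSys_repForm (h.folner.weight d) (h.types i) hf hf0 he)).frequently
  tfae_have 2 → 3 := by
    intro hfr
    refine ⟨0, div_pos (by linarith [h.iwahori.sum]) hr1, hfr.mono fun d hd => ?_⟩
    rw [zero_mul]
    have h1 : dimSt U S (Q d) I s (fun lam => ¬b lam) = 0 := by
      unfold dimSt Set.finrank
      have h2 : Submodule.span ℂ {f | IsSteinberg D (Q d) U I s f ∧ ∃ lam, IsEigen S f lam ∧ ¬b lam} = ⊥ := by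
        rw [Submodule.span_eq_bot]
        rintro f ⟨hf, lam, he, hl⟩
        by_contra hf0
        exact hl (hd lam f hf hf0 he)
      rw [h2, finrank_bot]
    rw [h1, Nat.cast_zero]
  tfae_have 3 → 1 := by
    rintro ⟨x, hx, hfr⟩ lam₀ h₀
    by_contra hb
    obtain ⟨w, hwb, hw⟩ := hab lam₀ h₀ hb
    have hε : 0 < ((1 - sumRefl I s) / r - x) / 2 := by linarith
    obtain ⟨d, hd, hd1, lam, f, hl, hf, hf0, he⟩ := (hfr.and_eventually ((hw.share _ hε).and hw.st)).exists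
    have h1 : (dimSt U S (Q d) I s w : ℝ) ≤ dimSt U S (Q d) I s (fun lam => ¬b lam) := by
      exact_mod_cast dimSt_mono hD (h.folner.weight d) h.iwahori.level hwb
    have h3 : (0 : ℝ) < dimSt U S (Q d) I s (fun _ => True) := by
      exact_mod_cast dimSt_pos hD (h.folner.weight d) h.iwahori.level hf hf0 he
    have h4 := hd1.trans (h1.trans hd)
    have h5 := mul_pos hε h3
    nlinarith
  tfae_have 4 → 1 := by
    intro hfr lam₀ h₀
    by_contra hb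
    obtain ⟨w, hwb, hw⟩ := hab lam₀ h₀ hb
    obtain ⟨d, hd, lam, hl, hpos⟩ := (hfr.and_eventually hw.signed).exists
    exact hwb lam hl (hd lam hpos)
  tfae_finish

end

/-- The main theorem. -/
theorem mainSt {F : Type} [Field F] [NumberField F] [IsTotallyReal F] {n : ℕ} {D : Datum F n}
    (hD : IsTotPosDef D.q) {ℓ : ℕ} [Fact ℓ.Prime]
    {B : Type} [CommRing B] [IsDomain B] [IsPrincipalIdealRing B] [Algebra B ℚ]
    [IsFractionRing B ℚ] [Algebra B (PadicAlgCl ℓ)]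
    {O : Type} [CommRing O] [HopfAlgebra B O] [Algebra.FiniteType B O] [Module.Free B O]
    (hO : LinearlyReductive (ℚ ⊗[B] O)) (A : OverB.HopfAction B Gal(AlgebraicClosure F/F) O)
    (hA : IsOpen (A.act.ker : Set Gal(AlgebraicClosure F/F)))
    {S : Finset (HeightOneSpectrum (𝓞 F))}
    (hS : ∀ v, v ∉ S → ∀ P u, IsInertiaAt v P u → A.act u = 1)
    (hSl : ∀ v : HeightOneSpectrum (𝓞 F), (ℓ : 𝓞 F) ∈ v.asIdeal → v ∈ S)
    (φ : HeightOneSpectrum (𝓞 F) → Gal(AlgebraicClosure F/F))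
    (hφ : ∀ v, v ∉ S → ∃ P : Ideal (𝓞 (AlgebraicClosure F)), IsOver v P ∧
      (IsFrob v P (φ v) ∨ IsFrob v P (φ v)⁻¹))
    {U K₁ : Subgroup D.Ad} (hU : IsTame ℓ U) (hK₁ : IsLevel ℓ U K₁) (hUS : ∀ v, v ∉ S → IsGoodAt U v)
    (sat : ∀ v, InvFun A (φ v) → Hecke U v) (hsat : ∀ v f, (sat v f).IsIntegral ℓ) :
    ∃ r : ℕ, 0 < r ∧
    (∀ Q, (∀ d, IsWeight D (Q d)) → (∀ d, Q d ≤ polyLE D d) → Filter.Tendsto
      (fun d => (Module.finrank ℂ (Q d) : ℝ) / Module.finrank ℂ (polyLE D d)) Filter.atTop (nhds 1) → IsFolner D Q) ∧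
    ∀ Q I k (s : Fin k → D.Ad) m (T : Fin m → RepType D) c, IsTestSt ℓ U Q I s T c →
      (∀ lam₀ ∈ AllSys ℓ S U, ¬BGSys ℓ A S φ sat lam₀ → ∃ ι : ℂ ≃+* PadicAlgCl ℓ,
        IsAbundantSt S r (fun lam => SameRes ℓ S ι lam lam₀ ∧ ¬BGSys ℓ A S φ sat lam) Q I s T c) ∧
      List.TFAE [
        ∀ lam ∈ AllSys ℓ S U, BGSys ℓ A S φ sat lam,
        ∃ᶠ d in Filter.atTop, ∀ lam f, IsSteinberg D (Q d) U I s f → f ≠ 0 → IsEigen S f lam →
          BGSys ℓ A S φ sat lam,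
        ∃ x : ℝ, x < (1 - sumRefl I s) / r ∧ ∃ᶠ d in Filter.atTop,
          (dimSt U S (Q d) I s (fun lam => ¬BGSys ℓ A S φ sat lam) : ℝ) ≤ x * dimSt U S (Q d) I s (fun _ => True),
        ∃ᶠ d in Filter.atTop, ∀ lam, 0 < ∑ i, c i * dimR S (Q d) (T i) (· = lam) → BGSys ℓ A S φ sat lam] := by
  obtain ⟨d, K, hK, -⟩ := exists_isUniform hU hK₁
  obtain ⟨r, hr, hF, -, hbg⟩ := main hD hO A hA hS hSl φ hφ hU hK₁ hUS sat hsat
  refine ⟨r, hr, hF, fun Q I k s m T c h => ?_⟩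
  have h2 : ∀ lam₀ ∈ AllSys ℓ S U, ¬BGSys ℓ A S φ sat lam₀ → ∃ ι : ℂ ≃+* PadicAlgCl ℓ,
      IsAbundantSt S r (fun lam => SameRes ℓ S ι lam lam₀ ∧ ¬BGSys ℓ A S φ sat lam) Q I s T c := by
    intro lam₀ h₀ hb0
    obtain ⟨ι, h1⟩ := hbg lam₀ h₀ hb0
    exact ⟨ι, abundantSt hD hSl hU hUS hK ι hr h1 h⟩
  refine ⟨h2, tfae_testsSt hD hr h fun lam₀ h₀ hb0 => ?_⟩
  obtain ⟨ι, h1⟩ := h2 lam₀ h₀ hb0
  exact ⟨_, fun lam hl => hl.2, h1⟩

end Pool.Agent.Lib.MP_666dc0_nt.PL
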